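import Pool.Agent.H564.BSD.Transfer

/-! Bounds for the logarithms of the local factors; random samples and deletions. -/

set_option autoImplicit false

namespace Pool.Agent.H564.BSD

open Pool.Agent.W263.BSD Filter Topology Classical MeasureTheory Set ProbabilityTheory
open CongruenceSubgroup UpperHalfPlane
open scoped MatrixGroups
open Pool.Agent.Results.MP_8b7eba_nt.OneSidedRieszMeans

variable {a b : ℤ}

theorem abs_log_one_sub_le {t : ℝ} (ht : |t| ≤ 1 / 2) : |Real.log (1 - t)| ≤ 2 * |t| ∧
    |Real.log (1 - t) + t| ≤ 2 * t ^ 2 := by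
  rw [abs_le] at ht
  obtain ⟨h1, h2⟩ := ht
  have hpos : 0 < 1 - t := by linarith
  have hup : Real.log (1 - t) ≤ -t := by
    have := Real.log_le_sub_one_of_pos hpos
    linarith
  have hlow : -t - 2 * t ^ 2 ≤ Real.log (1 - t) := by
    have h3 := Real.one_sub_inv_le_log_of_pos hpos
    have h4 : 1 - (1 - t)⁻¹ = -t / (1 - t) := by
      field_simp
      ring
    rw [h4] at h3
    refine le_trans ?_ h3
    rw [le_div_iff₀ hpos]
    nlinarith [sq_nonneg t, mul_nonneg (sq_nonneg t) (show (0 : ℝ) ≤ 1 - 2 * t by linarith)]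
  constructor
  · rcases le_total 0 t with h | h
    · rw [abs_of_nonneg h, abs_le]
      constructor
      · nlinarith
      · linarith
    · rw [abs_of_nonpos h, abs_le]
      constructor
      · nlinarith
      · linarith
  · rw [abs_le]
    constructor
    · linarith
    · nlinarith [sq_nonneg t]

theorem yy_zero_of_not_prime {p : ℕ} (hp : ¬ p.Prime) : yy a b p = 0 := by
  unfold yy
  rw [if_neg (fun h => hp h.1)]

/-- the main estimate for the local terms -/
theorem yy_main {p : ℕ} (hg : GoodPrime a b p) (h36 : 36 ≤ p) :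
    |yy a b p| ≤ 5 / √p ∧
    |yy a b p + ((p : ℝ) - pointCount a b p) / p| ≤ 19 / p := by
  have hp36 : (36 : ℝ) ≤ p := by exact_mod_cast h36
  have hp0 : (0 : ℝ) < p := by linarith
  have hs6 : 6 ≤ √(p : ℝ) := Real.le_sqrt_of_sq_le (by linarith)
  have hsq : √(p : ℝ) * √(p : ℝ) = p := Real.mul_self_sqrt hp0.le
  have hh := hasse hg (by omega)
  set A : ℝ := (p : ℝ) - pointCount a b p with hA
  set s : ℝ := √(p : ℝ) with hs
  have hs0 : 0 < s := by linarith
  have hy : yy a b p = Real.log (1 - (A - 1) / p) := by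
    unfold yy
    rw [if_pos hg]
    congr 1
    rw [hA]
    field_simp
    ring
  have hA1 : |A - 1| ≤ 2 * s + 1 := by
    calc |A - 1| ≤ |A| + |1| := abs_sub _ _
      _ ≤ 2 * s + 1 := by rw [abs_one]; linarith
  have ht : |(A - 1) / p| ≤ (2 * s + 1) / p := by
    rw [abs_div, abs_of_pos hp0]
    exact div_le_div_of_nonneg_right hA1 hp0.le
  have ht2 : (2 * s + 1) / p ≤ 1 / 2 := by
    rw [div_le_iff₀ hp0, ← hsq]
    nlinarith
  obtain ⟨h1, h2⟩ := abs_log_one_sub_le (ht.trans ht2)
  rw [hy]
  constructor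
  · refine h1.trans ((mul_le_mul_of_nonneg_left ht zero_le_two).trans ?_)
    rw [← hsq, mul_div_assoc', div_le_div_iff₀ (by positivity) hs0]
    nlinarith
  · have h3 : ((A - 1) / p) ^ 2 ≤ ((2 * s + 1) / p) ^ 2 := by
      rw [← sq_abs]
      exact pow_le_pow_left₀ (abs_nonneg _) ht 2
    have h4 : ((2 * s + 1) / p) ^ 2 ≤ 9 / p := by
      rw [← hsq, div_pow, div_le_div_iff₀ (by positivity) (by positivity)]
      have : (2 * s + 1) ^ 2 ≤ 9 * (s * s) := by nlinarith
      nlinarith [mul_le_mul_of_nonneg_right this (show (0 : ℝ) ≤ s * s by positivity)]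
    calc |Real.log (1 - (A - 1) / p) + A / p|
        = |(Real.log (1 - (A - 1) / p) + (A - 1) / p) + 1 / p| := by
          congr 1
          field_simp
          ring
      _ ≤ |Real.log (1 - (A - 1) / p) + (A - 1) / p| + |1 / (p : ℝ)| := abs_add_le _ _
      _ ≤ 2 * (9 / p) + 1 / p := by
          rw [abs_of_pos (show (0 : ℝ) < 1 / p by positivity)]
          linarith
      _ = 19 / p := by ring

/-- `|log (#E(𝔽_p)/p)| ≤ C / √p` -/
theorem yy_bound (a b : ℤ) : ∃ C : ℝ, 1 ≤ C ∧ ∀ p : ℕ, |yy a b p| ≤ C / √p := by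
  refine ⟨5 + ∑ p ∈ Finset.range 36, |yy a b p| * √p, ?_, fun p => ?_⟩
  · have : 0 ≤ ∑ p ∈ Finset.range 36, |yy a b p| * √p :=
      Finset.sum_nonneg fun p _ => by positivity
    linarith
  by_cases hp : p.Prime
  swap
  · rw [yy_zero_of_not_prime hp, abs_zero]
    have : 0 ≤ ∑ p ∈ Finset.range 36, |yy a b p| * √p :=
      Finset.sum_nonneg fun p _ => by positivity
    positivity
  have hs : 0 < √(p : ℝ) := Real.sqrt_pos.2 (by exact_mod_cast hp.pos)
  rw [le_div_iff₀ hs]
  rcases lt_or_ge p 36 with h | h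
  · have := Finset.single_le_sum (f := fun p : ℕ => |yy a b p| * √(p : ℝ))
      (fun i _ => by positivity) (Finset.mem_range.2 h)
    linarith
  · have h2 : 0 ≤ ∑ p ∈ Finset.range 36, |yy a b p| * √p :=
      Finset.sum_nonneg fun p _ => by positivity
    by_cases hg : GoodPrime a b p
    · have := (yy_main hg h).1
      rw [le_div_iff₀ hs] at this
      linarith
    · have hz : yy a b p = 0 := by
        unfold yy
        rw [if_neg hg]
      rw [hz, abs_zero, zero_mul]
      linarith

/-- the partial sums of `|w(p) - 1| / √p` over primes decide -/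
theorem close_of_small {w : ℕ → ℝ} (h : ∀ ε : ℝ, 0 < ε → ∀ᶠ x : ℝ in atTop,
    ∑ p ∈ (Finset.range (⌊x⌋₊ + 1)).filter Nat.Prime, |w p - 1| / √p ≤
      ε * Real.log (Real.log x)) : Close w a b := by
  intro ε hε
  obtain ⟨C, hC1, hC⟩ := yy_bound a b
  obtain ⟨X, hX⟩ := eventually_atTop.1 (h (ε / C) (by positivity))
  set g : ℕ → ℝ := fun p => if p.Prime then |w p - 1| / √p else 0 with hg
  have hg0 : ∀ p, 0 ≤ g p := by
    intro p
    simp only [hg]
    split_ifs
    · positivity
    · exact le_rfl
  have hterm : ∀ i, |(w i - 1) * yy a b i| ≤ C * g i := by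
    intro i
    simp only [hg]
    split_ifs with hi
    · rw [abs_mul]
      calc |w i - 1| * |yy a b i| ≤ |w i - 1| * (C / √i) :=
            mul_le_mul_of_nonneg_left (hC i) (abs_nonneg _)
        _ = C * (|w i - 1| / √i) := by ring
    · rw [yy_zero_of_not_prime hi, mul_zero, abs_zero, mul_zero]
  set n₀ : ℕ := ⌈X⌉₊ + 3 with hn₀
  refine ⟨C * ∑ i ∈ Finset.range (n₀ + 1), g i, fun n => ?_⟩
  have h0 : |∑ i ∈ Finset.range n, (w i - 1) * yy a b i| ≤ C * ∑ i ∈ Finset.range n, g i := by
    rw [Finset.mul_sum]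
    exact (Finset.abs_sum_le_sum_abs _ _).trans (Finset.sum_le_sum fun i _ => hterm i)
  refine h0.trans ?_
  rcases le_total n n₀ with hn | hn
  · have h1 : ∑ i ∈ Finset.range n, g i ≤ ∑ i ∈ Finset.range (n₀ + 1), g i :=
      Finset.sum_le_sum_of_subset_of_nonneg
        (Finset.range_subset_range.2 (by omega)) fun i _ _ => hg0 i
    have h2 := mul_le_mul_of_nonneg_left h1 (show 0 ≤ C by linarith)
    have h3 : 0 ≤ ε * LL n := mul_nonneg hε.le (by linarith [LL_pos n])
    linarith
  · have hnX : X ≤ (n : ℝ) := by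
      have h1 := Nat.le_ceil X
      have h2 : ((⌈X⌉₊ : ℕ) : ℝ) ≤ n := by exact_mod_cast (by omega : ⌈X⌉₊ ≤ n)
      linarith
    have h1 := hX n hnX
    rw [Nat.floor_natCast, Finset.sum_filter] at h1
    have h2 : ∑ i ∈ Finset.range n, g i ≤ ∑ i ∈ Finset.range (n + 1), g i :=
      Finset.sum_le_sum_of_subset_of_nonneg
        (Finset.range_subset_range.2 (by omega)) fun i _ _ => hg0 i
    have h3 : Real.log (Real.log n) ≤ LL n := by
      have hn3 : (3 : ℝ) ≤ n := by exact_mod_cast (by omega : 3 ≤ n)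
      have hl : 0 < Real.log n := Real.log_pos (by linarith)
      unfold LL
      have h4 : Real.log (Real.log n) ≤ Real.log (1 + Real.log (1 + n)) := by
        refine Real.log_le_log hl ?_
        have := Real.log_le_log (show (0 : ℝ) < n by linarith) (show (n : ℝ) ≤ 1 + n by linarith)
        linarith
      linarith
    have h5 : C * ∑ i ∈ Finset.range n, g i ≤ C * (ε / C * Real.log (Real.log n)) :=
      mul_le_mul_of_nonneg_left (h2.trans h1) (by linarith)
    have h6 : C * (ε / C * Real.log (Real.log n)) = ε * Real.log (Real.log n) := by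
      have : C ≠ 0 := by linarith
      field_simp
    have h7 : ε * Real.log (Real.log n) ≤ ε * LL n := mul_le_mul_of_nonneg_left h3 hε.le
    have h8 : 0 ≤ C * ∑ i ∈ Finset.range (n₀ + 1), g i :=
      mul_nonneg (by linarith) (Finset.sum_nonneg fun i _ => hg0 i)
    linarith

theorem abs_loglog_le {n : ℕ} (hn : 2 ≤ n) : |Real.log (Real.log n)| ≤ LL n := by
  have hn2 : (2 : ℝ) ≤ n := by exact_mod_cast hn
  have hl : 0 < Real.log n := Real.log_pos (by linarith)
  have h3 : Real.log (Real.log n) ≤ LL n := by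
    unfold LL
    have h4 : Real.log (Real.log n) ≤ Real.log (1 + Real.log (1 + n)) := by
      refine Real.log_le_log hl ?_
      have := Real.log_le_log (show (0 : ℝ) < n by linarith) (show (n : ℝ) ≤ 1 + n by linarith)
      linarith
    linarith
  rw [abs_le]
  refine ⟨?_, h3⟩
  have h5 : -1 ≤ Real.log (Real.log n) := by
    have h6 : Real.exp (-1) ≤ Real.log n := by
      have h7 : Real.log 2 ≤ Real.log n := Real.log_le_log (by norm_num) hn2
      have h8 := Real.log_two_gt_d9
      have h9 : Real.exp (-1) ≤ 1 / 2 := by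
        rw [Real.exp_neg, ← one_div]
        apply one_div_le_one_div_of_le (by norm_num)
        have := Real.add_one_le_exp (1 : ℝ)
        linarith
      linarith
    rw [Real.le_log_iff_exp_le hl]
    exact h6
  linarith [LL_pos n]

/-- **Random samples decide.** -/
theorem sample_close {Ω : Type*} [MeasurableSpace Ω] {μ : Measure Ω} [IsProbabilityMeasure μ]
    {A : ℕ → Set Ω} (hA : ∀ p, MeasurableSet (A p)) (hind : iIndepSet A μ)
    {δ : ℕ → ℝ} (hδ0 : ∀ p, 0 < δ p) (hμ : ∀ p, μ (A p) = ENNReal.ofReal (δ p))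
    (hs : Summable fun p : Nat.Primes => 1 / (δ p * (p * Real.log (Real.log p) ^ 2))) :
    ∀ᵐ ω ∂μ, ∀ a b : ℤ, Close (wt A δ ω) a b := by
  have hδ1 : ∀ p, δ p ≤ 1 := by
    intro p
    have h1 : μ (A p) ≤ 1 := prob_le_one
    rw [hμ, ENNReal.ofReal_le_one] at h1
    exact h1
  rw [ae_all_iff]
  intro a
  rw [ae_all_iff]
  intro b
  refine noise hA hind hδ0 hδ1 hμ LL_mono (fun n => by linarith [LL_pos n]) ?_
  obtain ⟨C, hC1, hC⟩ := yy_bound a b
  have h1 : Summable fun n : ℕ => if n.Prime then
      1 / (δ n * (n * Real.log (Real.log n) ^ 2)) else 0 := by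
    have h2 := (summable_subtype_iff_indicator (f := fun n : ℕ =>
      1 / (δ n * (n * Real.log (Real.log n) ^ 2))) (s := {p : ℕ | p.Prime})).1 hs
    refine h2.congr fun n => ?_
    simp only [Set.indicator_apply, Set.mem_ofPred_eq]
  refine Summable.of_nonneg_of_le (fun n => ?_) (fun n => ?_) (h1.mul_left (C ^ 2))
  · have := hδ0 n
    have := LL_pos n
    positivity
  · by_cases hn : n.Prime
    · rw [if_pos hn]
      have hn2 := hn.two_le
      have hn0 : (0 : ℝ) < n := by exact_mod_cast hn.pos
      have h3 : yy a b n ^ 2 ≤ C ^ 2 / n := by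
        have h4 := pow_le_pow_left₀ (abs_nonneg _) (hC n) 2
        rw [sq_abs, div_pow, Real.sq_sqrt hn0.le] at h4
        exact h4
      have h5 : Real.log (Real.log n) ^ 2 ≤ LL n ^ 2 := by
        rw [← sq_abs]
        exact pow_le_pow_left₀ (abs_nonneg _) (abs_loglog_le hn2) 2
      have h6 : 0 < Real.log (Real.log n) ^ 2 := by
        have h7 : Real.log (Real.log n) ≠ 0 := by
          intro h0
          have hl : 0 < Real.log n := Real.log_pos (by exact_mod_cast hn.one_lt)
          rcases Real.log_eq_zero.1 h0 with h8 | h8 | h8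
          · linarith
          · have h9 : (n : ℝ) = Real.exp 1 := by
              rw [← h8, Real.exp_log hn0]
            rcases lt_or_ge n 3 with h10 | h10
            · have : n = 2 := by omega
              rw [this] at h9
              have := Real.exp_one_gt_d9
              push_cast at h9
              linarith
            · have h11 : (3 : ℝ) ≤ n := by exact_mod_cast h10
              have := Real.exp_one_lt_d9
              linarith
          · linarith
        positivity
      have hδ := hδ0 n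
      calc yy a b n ^ 2 / (δ n * LL n ^ 2) ≤ (C ^ 2 / n) / (δ n * Real.log (Real.log n) ^ 2) := by
            refine div_le_div₀ (by positivity) h3 (by positivity) ?_
            exact mul_le_mul_of_nonneg_left h5 hδ.le
        _ = C ^ 2 * (1 / (δ n * (n * Real.log (Real.log n) ^ 2))) := by
            field_simp
    · rw [yy_zero_of_not_prime hn, if_neg hn]
      simp

end Pool.Agent.H564.BSD
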