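import Pool.Agent.H564.BSD.Bounds

/-! The series `∑ 1 / (p (log log p)²)` converges. -/

set_option autoImplicit false

namespace Pool.Agent.H564.BSD

open Filter Topology Classical

/-- upper bound of Mertens -/
theorem mertens_upper : ∃ C : ℝ, 1 ≤ C ∧ ∀ n : ℕ,
    ∑ i ∈ Finset.range n, (if i.Prime then (1 : ℝ) / i else 0) ≤ C * LL n := by
  obtain ⟨C, hC0, hC⟩ := Pool.Agent.Helper923.HMertens.mertens_ratio
  have hl2 : 0 < Real.log 2 := Real.log_pos (by norm_num)
  refine ⟨3 + C / Real.log 2, ?_, fun n => ?_⟩
  · have : 0 ≤ C / Real.log 2 := by positivity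
    linarith
  have hCl : 0 ≤ C / Real.log 2 := by positivity
  rcases lt_or_ge n 3 with hn | hn
  · have h1 : ∑ i ∈ Finset.range n, (if i.Prime then (1 : ℝ) / i else 0) = 0 := by
      refine Finset.sum_eq_zero fun i hi => ?_
      rw [Finset.mem_range] at hi
      rw [if_neg]
      intro h
      have := h.two_le
      omega
    rw [h1]
    have := LL_pos n
    positivity
  · obtain ⟨m, rfl⟩ : ∃ m, n = m + 1 := ⟨n - 1, by omega⟩
    have hm2 : 2 ≤ m := by omega
    have h1 := hC 2 m le_rfl hm2
    rw [abs_le] at h1
    have h2 : ∑ i ∈ Finset.range (m + 1), (if i.Prime then (1 : ℝ) / i else 0) =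
        1 / 2 + ∑ p ∈ (Finset.Ioc 2 m).filter Nat.Prime, (1 : ℝ) / p := by
      rw [← Finset.sum_filter]
      have h3 : (Finset.range (m + 1)).filter Nat.Prime =
          insert 2 ((Finset.Ioc 2 m).filter Nat.Prime) := by
        ext p
        simp only [Finset.mem_filter, Finset.mem_range, Finset.mem_insert, Finset.mem_Ioc]
        constructor
        · rintro ⟨h4, h5⟩
          have := h5.two_le
          by_cases h6 : p = 2
          · left; exact h6
          · right
            exact ⟨⟨by omega, by omega⟩, h5⟩
        · rintro (rfl | ⟨⟨h4, h5⟩, h6⟩)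
          · exact ⟨by omega, Nat.prime_two⟩
          · exact ⟨by omega, h6⟩
      rw [h3, Finset.sum_insert]
      · norm_num
      · simp
    rw [h2]
    have hm0 : (2 : ℝ) ≤ m := by exact_mod_cast hm2
    have hlm : 0 < Real.log m := Real.log_pos (by linarith)
    have h4 : Real.log (Real.log m / Real.log 2) ≤ 1 + LL (m + 1) := by
      rw [Real.log_div hlm.ne' hl2.ne']
      have h5 : Real.log (Real.log m) ≤ Real.log (1 + Real.log (1 + ((m + 1 : ℕ) : ℝ))) := by
        refine Real.log_le_log hlm ?_
        have := Real.log_le_log (show (0 : ℝ) < m by linarith)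
          (show (m : ℝ) ≤ 1 + ((m + 1 : ℕ) : ℝ) by push_cast; linarith)
        linarith
      have h6 : -1 ≤ Real.log (Real.log 2) := by
        have h6 : Real.exp (-1) ≤ Real.log 2 := by
          have h8 := Real.log_two_gt_d9
          have h9 : Real.exp (-1) ≤ 1 / 2 := by
            rw [Real.exp_neg, ← one_div]
            apply one_div_le_one_div_of_le (by norm_num)
            have := Real.add_one_le_exp (1 : ℝ)
            linarith
          linarith
        rw [Real.le_log_iff_exp_le hl2]
        exact h6
      unfold LL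
      linarith
    have h5 := LL_pos (m + 1)
    push_cast at h1
    have h7 : (C / Real.log 2) * 1 ≤ (C / Real.log 2) * LL (m + 1) :=
      mul_le_mul_of_nonneg_left h5 hCl
    nlinarith [h1.2]

theorem summable_LL : Summable fun n : ℕ => if n.Prime then (1 : ℝ) / (n * LL n ^ 2) else 0 := by
  obtain ⟨C, hC1, hC⟩ := mertens_upper
  set g : ℕ → ℝ := fun i => if i.Prime then (1 : ℝ) / i else 0 with hg
  have hg0 : ∀ i, 0 ≤ g i := by
    intro i
    simp only [hg]
    split_ifs <;> positivity
  set S : ℕ → ℝ := fun n => 1 + ∑ i ∈ Finset.range n, g i with hS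
  have hS1 : ∀ n, 1 ≤ S n := by
    intro n
    have := Finset.sum_nonneg (s := Finset.range n) fun i _ => hg0 i
    simp only [hS]
    linarith
  have hSs : ∀ n, S (n + 1) = S n + g n := by
    intro n
    simp only [hS]
    rw [Finset.sum_range_succ]
    ring
  have hSL : ∀ n, S n ≤ 2 * C * LL n := by
    intro n
    have h1 := hC n
    have h2 := LL_pos n
    simp only [hS]
    have h3 : 1 ≤ C * LL n := by nlinarith
    have h4 : ∑ i ∈ Finset.range n, g i ≤ C * LL n := h1
    linarith
  have hterm : ∀ n, (if n.Prime then (1 : ℝ) / (n * LL n ^ 2) else 0) ≤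
      (8 * C ^ 2 ) * (1 / S n - 1 / S (n + 1)) := by
    intro n
    have h1 := hS1 n
    have h2 := hSs n
    have h3 := hg0 n
    have h4 := LL_pos n
    have h5 := hSL n
    have hdiff : 1 / S n - 1 / S (n + 1) = g n / (S n * S (n + 1)) := by
      rw [h2]
      have : S n + g n ≠ 0 := by linarith
      have : S n ≠ 0 := by linarith
      field_simp
      ring
    rw [hdiff]
    have e : (if n.Prime then (1 : ℝ) / (n * LL n ^ 2) else 0) = g n / LL n ^ 2 := by
      simp only [hg]
      split_ifs
      · rw [div_div]
      · simp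
    rw [e]
    have h6 : g n ≤ 1 := by
      simp only [hg]
      split_ifs with hp
      · have : (1 : ℝ) ≤ n := by exact_mod_cast hp.one_le
        rw [div_le_one (by linarith)]
        exact this
      · exact zero_le_one
    have h7 : S (n + 1) ≤ 2 * S n := by rw [h2]; linarith
    have h8 : S n * S (n + 1) ≤ 8 * C ^ 2 * LL n ^ 2 := by
      calc S n * S (n + 1) ≤ S n * (2 * S n) := mul_le_mul_of_nonneg_left h7 (by linarith)
        _ = 2 * S n ^ 2 := by ring
        _ ≤ 2 * (2 * C * LL n) ^ 2 := by
            have := pow_le_pow_left₀ (by linarith : 0 ≤ S n) h5 2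
            linarith
        _ = 8 * C ^ 2 * LL n ^ 2 := by ring
    have h9 : 0 < S n * S (n + 1) := by
      have := hS1 (n + 1)
      positivity
    have h10 : 0 < LL n ^ 2 := by positivity
    rw [mul_div_assoc', div_le_div_iff₀ h10 h9]
    nlinarith [mul_le_mul_of_nonneg_left h8 h3]
  refine summable_of_sum_range_le (c := 8 * C ^ 2) (fun n => ?_) fun n => ?_
  · have := LL_pos n
    split_ifs <;> positivity
  · calc ∑ i ∈ Finset.range n, (if i.Prime then (1 : ℝ) / (i * LL i ^ 2) else 0)
        ≤ ∑ i ∈ Finset.range n, (8 * C ^ 2) * (1 / S i - 1 / S (i + 1)) :=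
          Finset.sum_le_sum fun i _ => hterm i
      _ = (8 * C ^ 2) * (1 / S 0 - 1 / S n) := by
          rw [← Finset.mul_sum, Finset.sum_range_sub']
      _ ≤ 8 * C ^ 2 := by
          have h1 : S 0 = 1 := by simp [hS]
          rw [h1]
          have h2 : 0 ≤ 1 / S n := by
            have := hS1 n
            positivity
          nlinarith [sq_nonneg C]

theorem summable_loglog (δ : ℝ) :
    Summable fun p : Nat.Primes => 1 / (δ * (p * Real.log (Real.log p) ^ 2)) := by
  have h1 : Summable fun n : ℕ => if n.Prime then
      1 / (n * Real.log (Real.log n) ^ 2) else 0 := by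
    refine Summable.of_norm_bounded_eventually_nat (summable_LL.mul_left 25) ?_
    filter_upwards [eventually_ge_atTop 55] with n hn
    have hn55 : (55 : ℝ) ≤ n := by exact_mod_cast hn
    split_ifs
    · have hl : 4 ≤ Real.log n := by
        rw [Real.le_log_iff_exp_le (by linarith)]
        have h2 : Real.exp 4 = Real.exp 1 ^ 4 := by rw [← Real.exp_nat_mul]; norm_num
        rw [h2]
        have h3 := Real.exp_one_lt_d9
        have h4 := Real.exp_pos 1
        calc Real.exp 1 ^ 4 ≤ 2.7182818286 ^ 4 := by gcongr
          _ ≤ 55 := by norm_num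
          _ ≤ n := hn55
      have hll : 1 ≤ Real.log (Real.log n) := by
        rw [Real.le_log_iff_exp_le (by linarith)]
        have := Real.exp_one_lt_d9
        linarith
      have hLL : LL n ≤ 5 * Real.log (Real.log n) := by
        unfold LL
        have h5 : Real.log (1 + (n : ℝ)) ≤ 2 * Real.log n := by
          rw [← Real.log_rpow (by linarith)]
          refine Real.log_le_log (by positivity) ?_
          have : (n : ℝ) ^ (2 : ℝ) = (n : ℝ) ^ 2 := by norm_cast
          rw [this]
          nlinarith
        have h0 := log_one_add_nonneg n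
        have h6 : Real.log (1 + Real.log (1 + (n : ℝ))) ≤ Real.log (4 * Real.log n) := by
          refine Real.log_le_log (by linarith) (by linarith)
        rw [Real.log_mul (by norm_num) (by linarith)] at h6
        have h7 : Real.log 4 ≤ 3 := by
          have h8 := Real.log_le_sub_one_of_pos (show (0 : ℝ) < 4 by norm_num)
          linarith
        linarith
      rw [Real.norm_of_nonneg (by positivity)]
      have hL1 := LL_pos n
      have h9 : LL n ^ 2 ≤ 25 * Real.log (Real.log n) ^ 2 := by
        have := pow_le_pow_left₀ (by linarith : 0 ≤ LL n) hLL 2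
        nlinarith
      rw [mul_one_div, div_le_div_iff₀ (by positivity) (by positivity)]
      have h10 : (0 : ℝ) ≤ n := by linarith
      nlinarith [mul_le_mul_of_nonneg_left h9 h10]
    · simp
  have h2 : Summable fun p : Nat.Primes => 1 / ((p : ℝ) * Real.log (Real.log p) ^ 2) := by
    refine (summable_subtype_iff_indicator (f := fun n : ℕ =>
      1 / ((n : ℝ) * Real.log (Real.log n) ^ 2)) (s := {p : ℕ | p.Prime})).2 ?_
    refine h1.congr fun n => ?_
    simp only [Set.indicator_apply, Set.mem_ofPred_eq]
  refine (h2.mul_left (1 / δ)).congr fun p => ?_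
  rw [one_div_mul_one_div]

end Pool.Agent.H564.BSD
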