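import Pool.Agent.H564.BSD.Smooth

/-! Many primes with large `a_p` of each sign in every long window. -/

set_option autoImplicit false

namespace Pool.Agent.H564.BSD

open Pool.Agent.W263.BSD Filter Topology Classical MeasureTheory
open Pool.Agent.Results.MP_8b7eba_nt.OneSidedRieszMeans

variable {a b : ℤ}

/-- sums over the window `(e^s, e^t]` -/
noncomputable def SW (f : ℕ → ℝ) (s t : ℝ) : ℝ :=
  ∑ i ∈ Finset.range (⌊Real.exp t⌋₊ + 1), if Real.exp s < i then f i else 0

noncomputable def EE (f : ℕ → ℝ) (t : ℝ) : ℝ := ∑ i ∈ Finset.range (⌊Real.exp t⌋₊ + 1), f i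

theorem SW_eq (f : ℕ → ℝ) {s t : ℝ} (h : s ≤ t) : SW f s t = EE f t - EE f s := by
  unfold SW EE
  have hsub : Finset.range (⌊Real.exp s⌋₊ + 1) ⊆ Finset.range (⌊Real.exp t⌋₊ + 1) := by
    refine Finset.range_subset_range.2 ?_
    have := Nat.floor_le_floor (Real.exp_le_exp.2 h)
    omega
  rw [← Finset.sum_sdiff hsub (f := f), add_sub_cancel_right, ← Finset.sum_filter]
  congr 1
  ext i
  simp only [Finset.mem_filter, Finset.mem_sdiff, Finset.mem_range]
  have : Real.exp s < i ↔ ¬ (i < ⌊Real.exp s⌋₊ + 1) := by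
    rw [not_lt, Nat.add_one_le_iff, Nat.floor_lt (Real.exp_pos s).le]
  rw [this]

theorem SW_add (f : ℕ → ℝ) {s r t : ℝ} (h1 : s ≤ r) (h2 : r ≤ t) :
    SW f s t = SW f s r + SW f r t := by
  rw [SW_eq f h1, SW_eq f h2, SW_eq f (h1.trans h2)]
  ring

theorem SW_mono {f g : ℕ → ℝ} {s t : ℝ} (h : ∀ i : ℕ, Real.exp s < i → (i : ℝ) ≤ Real.exp t → f i ≤ g i) :
    SW f s t ≤ SW g s t := by
  unfold SW
  refine Finset.sum_le_sum fun i hi => ?_
  rw [Finset.mem_range] at hi
  split_ifs with h1
  · exact h i h1 ((Nat.cast_le.2 (Nat.lt_succ_iff.1 hi)).trans (Nat.floor_le (Real.exp_pos t).le))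
  · exact le_rfl

theorem SW_congr {f g : ℕ → ℝ} {s t : ℝ} (h : ∀ i : ℕ, Real.exp s < i → (i : ℝ) ≤ Real.exp t → f i = g i) :
    SW f s t = SW g s t :=
  le_antisymm (SW_mono fun i h1 h2 => (h i h1 h2).le) (SW_mono fun i h1 h2 => (h i h1 h2).ge)

theorem SW_nonneg {f : ℕ → ℝ} {s t : ℝ} (h : ∀ i : ℕ, Real.exp s < i → 0 ≤ f i) :
    0 ≤ SW f s t := by
  unfold SW
  refine Finset.sum_nonneg fun i _ => ?_
  split_ifs with h1
  · exact h i h1
  · exact le_rfl

theorem SW_const_mul (f : ℕ → ℝ) (c s t : ℝ) : SW (fun i => c * f i) s t = c * SW f s t := by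
  unfold SW
  rw [Finset.mul_sum]
  refine Finset.sum_congr rfl fun i _ => ?_
  split_ifs
  · rfl
  · rw [mul_zero]

theorem SW_add_fun (f g : ℕ → ℝ) (s t : ℝ) : SW (fun i => f i + g i) s t = SW f s t + SW g s t := by
  unfold SW
  rw [← Finset.sum_add_distrib]
  refine Finset.sum_congr rfl fun i _ => ?_
  split_ifs
  · rfl
  · rw [add_zero]

/-- the trace -/
noncomputable def trc (a b : ℤ) (i : ℕ) : ℝ := (i : ℝ) - pointCount a b i

noncomputable def fone (a b : ℤ) (i : ℕ) : ℝ := if GoodPrime a b i then 1 / (i : ℝ) else 0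
noncomputable def fsq (a b : ℤ) (i : ℕ) : ℝ := if GoodPrime a b i then trc a b i ^ 2 / (i : ℝ) ^ 2 else 0

theorem win_eq (f : ℕ → ℝ) {u : ℝ} :
    ∑ p ∈ (Finset.range (⌊Real.exp u⌋₊ + 1)).filter
      (fun p => GoodPrime a b p ∧ √(Real.exp u) < p), f p =
    SW (fun i => if GoodPrime a b i then f i else 0) (u / 2) u := by
  have hsq : √(Real.exp u) = Real.exp (u / 2) := by
    rw [Real.sqrt_eq_iff_mul_self_eq (Real.exp_pos u).le (Real.exp_pos _).le, ← Real.exp_add]
    congr 1; ring
  unfold SW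
  rw [hsq, Finset.sum_filter]
  refine Finset.sum_congr rfl fun i _ => ?_
  by_cases h1 : Real.exp (u / 2) < i <;> by_cases h2 : GoodPrime a b i <;> simp [h1, h2]

theorem windows (hΔ : 4 * a ^ 3 + 27 * b ^ 2 ≠ 0) (hrs : Tendsto (rsSum a b) atTop (𝓝 0)) :
    Tendsto (fun u => SW (fone a b) (u / 2) u) atTop (𝓝 (Real.log 2)) ∧
    Tendsto (fun u => SW (fsq a b) (u / 2) u) atTop (𝓝 (Real.log 2)) := by
  have h1 := hrs.comp Real.tendsto_exp_atTop
  have h2 := (corr_tendsto hΔ hrs).comp Real.tendsto_exp_atTop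
  have key : ∀ u : ℝ, SW (fone a b) (u / 2) u = (rsSum a b ∘ Real.exp) u -
      2 * ((fun x : ℝ => ∑ p ∈ (Finset.range (⌊x⌋₊ + 1)).filter
      (fun p => GoodPrime a b p ∧ √x < p),
        (((p : ℝ) - pointCount a b p) ^ 2 - 2 * p) / (2 * (p : ℝ) ^ 2)) ∘ Real.exp) u := by
    intro u
    simp only [Function.comp_apply]
    unfold rsSum
    rw [Finset.mul_sum, ← Finset.sum_sub_distrib, win_eq]
    refine SW_congr fun i _ _ => ?_
    unfold fone
    split_ifs with hg
    · have : (i : ℝ) ≠ 0 := by exact_mod_cast hg.1.ne_zero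
      field_simp
      ring
    · rfl
  have key2 : ∀ u : ℝ, SW (fsq a b) (u / 2) u = 2 * (rsSum a b ∘ Real.exp) u -
      2 * ((fun x : ℝ => ∑ p ∈ (Finset.range (⌊x⌋₊ + 1)).filter
      (fun p => GoodPrime a b p ∧ √x < p),
        (((p : ℝ) - pointCount a b p) ^ 2 - 2 * p) / (2 * (p : ℝ) ^ 2)) ∘ Real.exp) u := by
    intro u
    simp only [Function.comp_apply]
    unfold rsSum
    rw [Finset.mul_sum, Finset.mul_sum, ← Finset.sum_sub_distrib, win_eq]
    refine SW_congr fun i _ _ => ?_
    unfold fsq trc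
    split_ifs with hg
    · have : (i : ℝ) ≠ 0 := by exact_mod_cast hg.1.ne_zero
      field_simp
      ring
    · rfl
  constructor
  · have h3 := h1.sub (h2.const_mul 2)
    have e : (0 : ℝ) - 2 * -(Real.log 2 / 2) = Real.log 2 := by ring
    rw [e] at h3
    exact h3.congr fun u => (key u).symm
  · have h3 := (h1.const_mul 2).sub (h2.const_mul 2)
    have e : (2 : ℝ) * 0 - 2 * -(Real.log 2 / 2) = Real.log 2 := by ring
    rw [e] at h3
    exact h3.congr fun u => (key2 u).symm

theorem fone_nonneg (i : ℕ) : 0 ≤ fone a b i := by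
  unfold fone
  split_ifs <;> positivity

/-- three windows -/
theorem fone_eighth (hΔ : 4 * a ^ 3 + 27 * b ^ 2 ≠ 0) (hrs : Tendsto (rsSum a b) atTop (𝓝 0)) :
    ∀ᶠ L : ℝ in atTop, SW (fone a b) (L / 8) L ≤ 3 := by
  have h := (windows hΔ hrs).1
  have hl : Real.log 2 < 1 := by have := Real.log_two_lt_d9; linarith
  have h1 := h.eventually (gt_mem_nhds hl)
  have t2 : Tendsto (fun L : ℝ => L / 2) atTop atTop := tendsto_id.atTop_div_const (by norm_num)
  have t4 : Tendsto (fun L : ℝ => L / 4) atTop atTop := tendsto_id.atTop_div_const (by norm_num)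
  filter_upwards [h1, t2.eventually h1, t4.eventually h1, eventually_ge_atTop 0]
    with L h2 h3 h4 h0
  rw [SW_add (fone a b) (show L / 8 ≤ L / 2 by linarith) (show L / 2 ≤ L by linarith),
    SW_add (fone a b) (show L / 8 ≤ L / 4 by linarith) (show L / 4 ≤ L / 2 by linarith)]
  have e3 : L / 2 / 2 = L / 4 := by ring
  have e4 : L / 4 / 2 = L / 8 := by ring
  rw [e3] at h3
  rw [e4] at h4
  linarith

/-- the mean square of the local terms -/
theorem yy_sq (hΔ : 4 * a ^ 3 + 27 * b ^ 2 ≠ 0) (hrs : Tendsto (rsSum a b) atTop (𝓝 0)) :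
    ∀ᶠ u : ℝ in atTop, 1 / 4 ≤ SW (fun i => yy a b i ^ 2) (u / 2) u := by
  obtain ⟨h1, h2⟩ := windows hΔ hrs
  have hl : Real.log 2 < 1 := by have := Real.log_two_lt_d9; linarith
  have hl' : (0.6 : ℝ) < Real.log 2 := by have := Real.log_two_gt_d9; linarith
  filter_upwards [h1.eventually (gt_mem_nhds hl), h2.eventually (lt_mem_nhds hl'),
    eventually_ge_atTop 30] with u h3 h4 hu
  have hE : 36 * 361 ≤ Real.exp (u / 2) := by
    have h5 : Real.exp 15 ≤ Real.exp (u / 2) := Real.exp_le_exp.2 (by linarith)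
    have h6 : (2 : ℝ) ^ 15 ≤ Real.exp 15 := by
      have : Real.exp 15 = Real.exp 1 ^ 15 := by rw [← Real.exp_nat_mul]; norm_num
      rw [this]
      have h7 := Real.add_one_le_exp (1 : ℝ)
      exact pow_le_pow_left₀ (by norm_num) (by linarith) 15
    norm_num at h6
    linarith
  have h5 : SW (fun i => 1 / 2 * fsq a b i + -(1 / 36) * fone a b i) (u / 2) u ≤
      SW (fun i => yy a b i ^ 2) (u / 2) u := by
    refine SW_mono fun i hi _ => ?_
    by_cases hg : GoodPrime a b i
    · have hi0 : (36 * 361 : ℝ) ≤ i := hE.trans hi.le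
      have hi36 : 36 ≤ i := by
        have : (36 : ℝ) ≤ i := by linarith
        exact_mod_cast this
      have hip : (0 : ℝ) < i := by linarith
      obtain ⟨-, h6⟩ := yy_main hg hi36
      unfold fsq fone trc
      rw [if_pos hg, if_pos hg]
      set y := yy a b i
      set t : ℝ := ((i : ℝ) - pointCount a b i) / i with ht
      have e : ((i : ℝ) - pointCount a b i) ^ 2 / (i : ℝ) ^ 2 = t ^ 2 := by rw [ht, div_pow]
      rw [e]
      have h7 : (y + t) ^ 2 ≤ (19 / i) ^ 2 := by
        rw [← sq_abs]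
        exact pow_le_pow_left₀ (abs_nonneg _) h6 2
      have h8 : (19 / (i : ℝ)) ^ 2 ≤ 1 / 36 * (1 / i) := by
        rw [div_pow, div_le_iff₀ (by positivity)]
        have e2 : 1 / 36 * (1 / (i : ℝ)) * (i : ℝ) ^ 2 = i / 36 := by
          field_simp
        rw [e2]
        norm_num
        linarith
      nlinarith [sq_nonneg (y + t), sq_nonneg (y - t), sq_nonneg (2 * y + t)]
    · have h6 : yy a b i = 0 := by unfold yy; rw [if_neg hg]
      unfold fsq fone
      rw [if_neg hg, if_neg hg, h6]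
      norm_num
  rw [SW_add_fun, SW_const_mul, SW_const_mul] at h5
  linarith

theorem exp_half_log {i : ℕ} (hi : 0 < i) : Real.exp (-(Real.log i / 2)) = 1 / √(i : ℝ) := by
  have h0 : (0 : ℝ) < i := by exact_mod_cast hi
  rw [Real.exp_neg, ← one_div]
  congr 1
  rw [eq_comm, Real.sqrt_eq_iff_mul_self_eq h0.le (Real.exp_pos _).le, ← Real.exp_add]
  rw [add_halves, Real.exp_log h0]

/-- **Mass of both signs.** -/
theorem mass (hΔ : 4 * a ^ 3 + 27 * b ^ 2 ≠ 0) (hrs : Tendsto (rsSum a b) atTop (𝓝 0))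
    (hR : ∀ᶠ x : ℝ in atTop, |riesz a b 1 x| ≤ Real.log x) :
    ∃ c : ℝ, 0 < c ∧ ∀ τ : ℝ, τ = 1 ∨ τ = -1 → ∀ᶠ L : ℝ in atTop, c * Real.exp (L / 16) ≤
      SW (fun i => if c / √i ≤ τ * yy a b i then |yy a b i| else 0) (L / 8) L := by
  obtain ⟨C, hC1, hC⟩ := yy_bound a b
  set c2 : ℝ := 1 / (4096 * C) with hc2
  have hc2p : 0 < c2 := by positivity
  refine ⟨c2 / 6, by positivity, fun τ hτ => ?_⟩
  have hτ1 : |τ| = 1 := by rcases hτ with h | h <;> rw [h] <;> simp
  have t2 : Tendsto (fun L : ℝ => L / 2) atTop atTop := tendsto_id.atTop_div_const (by norm_num)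
  filter_upwards [fone_eighth hΔ hrs, t2.eventually (yy_sq hΔ hrs),
    smooth_small hR (show 0 < 2 * c2 by positivity), eventually_ge_atTop 1] with L h3 h4 h5 hL1
  have hL0 : 0 < L := by linarith
  -- the kernel
  set k : ℕ → ℝ := fun i => 1 / √(i : ℝ) * q0 L (Real.log i) with hk
  have hlog : ∀ i : ℕ, Real.exp (L / 8) < i → (i : ℝ) ≤ Real.exp L →
      L / 8 ≤ Real.log i ∧ Real.log i ≤ L ∧ 0 < i := by
    intro i h6 h7
    have h8 : (0 : ℝ) < i := (Real.exp_pos _).trans h6
    refine ⟨?_, ?_, by exact_mod_cast h8⟩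
    · rw [Real.le_log_iff_exp_le h8]; exact h6.le
    · rw [Real.log_le_iff_le_exp h8]; exact h7
  have hk0 : ∀ i : ℕ, Real.exp (L / 8) < i → (i : ℝ) ≤ Real.exp L →
      0 ≤ k i ∧ k i ≤ 1 / √(i : ℝ) := by
    intro i h6 h7
    obtain ⟨h8, h9, h10⟩ := hlog i h6 h7
    obtain ⟨h11, h12, -, -⟩ := q_bounds hL1 h8 h9
    simp only [hk]
    have h13 : 0 ≤ 1 / √(i : ℝ) := by positivity
    exact ⟨mul_nonneg h13 h11, by nlinarith⟩
  -- first sum
  have hT1 : |SW (fun i => yy a b i * k i) (L / 8) L| ≤ 2 * c2 := by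
    have e : SW (fun i => yy a b i * k i) (L / 8) L =
        ∑ i ∈ Finset.range (⌊Real.exp L⌋₊ + 1),
          yy a b i * (if L / 8 < Real.log i then g0 L (Real.log i) else 0) := by
      unfold SW
      refine Finset.sum_congr rfl fun i _ => ?_
      rcases Nat.eq_zero_or_pos i with rfl | hi0
      · have h6 : ¬ Real.exp (L / 8) < ((0 : ℕ) : ℝ) := by
          have := Real.exp_pos (L / 8)
          push_cast
          linarith
        have h7 : yy a b 0 = 0 := yy_zero_of_not_prime Nat.not_prime_zero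
        rw [if_neg h6, h7, zero_mul]
      · have h6 : (Real.exp (L / 8) < i) ↔ (L / 8 < Real.log i) := by
          rw [Real.lt_log_iff_exp_lt (by exact_mod_cast hi0)]
        by_cases h7 : L / 8 < Real.log i
        · rw [if_pos (h6.2 h7), if_pos h7]
          simp only [hk, g0]
          rw [exp_half_log hi0]
        · rw [if_neg (fun h => h7 (h6.1 h)), if_neg h7, mul_zero]
    rw [e]
    exact h5
  -- second sum
  have hT2 : 4 * c2 ≤ SW (fun i => |yy a b i| * k i) (L / 8) L := by
    have h6 : SW (fun i => (1 / C) * (yy a b i ^ 2 * q0 L (Real.log i))) (L / 8) L ≤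
        SW (fun i => |yy a b i| * k i) (L / 8) L := by
      refine SW_mono fun i h7 h8 => ?_
      obtain ⟨h9, h10, h11⟩ := hlog i h7 h8
      obtain ⟨h12, -, -, -⟩ := q_bounds hL1 h9 h10
      simp only [hk]
      have h13 := hC i
      have hs : 0 < √(i : ℝ) := Real.sqrt_pos.2 (by exact_mod_cast h11)
      have h14 : 1 / C * yy a b i ^ 2 ≤ |yy a b i| * (1 / √(i : ℝ)) := by
        rw [← sq_abs, sq]
        have h15 : 1 / C * |yy a b i| ≤ 1 / √(i : ℝ) := by
          rw [one_div_mul_eq_div, div_le_iff₀ (by linarith)]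
          calc |yy a b i| ≤ C / √(i : ℝ) := h13
            _ = 1 / √(i : ℝ) * C := by ring
        calc 1 / C * (|yy a b i| * |yy a b i|) = |yy a b i| * (1 / C * |yy a b i|) := by ring
          _ ≤ |yy a b i| * (1 / √(i : ℝ)) := mul_le_mul_of_nonneg_left h15 (abs_nonneg _)
      calc 1 / C * (yy a b i ^ 2 * q0 L (Real.log i))
          = (1 / C * yy a b i ^ 2) * q0 L (Real.log i) := by ring
        _ ≤ (|yy a b i| * (1 / √(i : ℝ))) * q0 L (Real.log i) :=
            mul_le_mul_of_nonneg_right h14 h12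
        _ = _ := by ring
    refine le_trans ?_ h6
    rw [SW_const_mul]
    have h7 : SW (fun i => (1 / 256) * yy a b i ^ 2) (L / 4) (L / 2) ≤
        SW (fun i => yy a b i ^ 2 * q0 L (Real.log i)) (L / 8) L := by
      have h8 : SW (fun i => (1 / 256) * yy a b i ^ 2) (L / 4) (L / 2) ≤
          SW (fun i => yy a b i ^ 2 * q0 L (Real.log i)) (L / 4) (L / 2) := by
        refine SW_mono fun i h9 h10 => ?_
        have h11 : (0 : ℝ) < i := (Real.exp_pos _).trans h9
        have h12 : L / 4 ≤ Real.log i := by rw [Real.le_log_iff_exp_le h11]; exact h9.le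
        have h13 : Real.log i ≤ L / 2 := by rw [Real.log_le_iff_le_exp h11]; exact h10
        have h14 : 1 / 256 ≤ q0 L (Real.log i) := by
          unfold q0
          rw [le_div_iff₀ (by positivity)]
          have h15 : (L / 8) ^ 2 ≤ (Real.log i - L / 8) ^ 2 :=
            pow_le_pow_left₀ (by linarith) (by linarith) 2
          have h16 : (L / 2) ^ 2 ≤ (L - Real.log i) ^ 2 :=
            pow_le_pow_left₀ (by linarith) (by linarith) 2
          calc 1 / 256 * L ^ 4 = (L / 8) ^ 2 * (L / 2) ^ 2 := by ring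
            _ ≤ _ := mul_le_mul h15 h16 (by positivity) (by positivity)
        nlinarith [sq_nonneg (yy a b i)]
      have h9 : ∀ s t : ℝ, L / 8 ≤ s → t ≤ L →
          0 ≤ SW (fun i => yy a b i ^ 2 * q0 L (Real.log i)) s t := by
        intro s t hs ht
        unfold SW
        refine Finset.sum_nonneg fun i hi => ?_
        rw [Finset.mem_range] at hi
        split_ifs with h10
        · have h11 : (0 : ℝ) < i := (Real.exp_pos _).trans h10
          have h12 : L / 8 ≤ Real.log i := by
            rw [Real.le_log_iff_exp_le h11]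
            exact (Real.exp_le_exp.2 hs).trans h10.le
          have h13 : Real.log i ≤ L := by
            rw [Real.log_le_iff_le_exp h11]
            exact ((Nat.cast_le.2 (Nat.lt_succ_iff.1 hi)).trans
              (Nat.floor_le (Real.exp_pos t).le)).trans (Real.exp_le_exp.2 ht)
          obtain ⟨h14, -, -, -⟩ := q_bounds hL1 h12 h13
          positivity
        · exact le_rfl
      rw [SW_add (fun i => yy a b i ^ 2 * q0 L (Real.log i)) (show L / 8 ≤ L / 2 by linarith)
        (show L / 2 ≤ L by linarith),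
        SW_add (fun i => yy a b i ^ 2 * q0 L (Real.log i)) (show L / 8 ≤ L / 4 by linarith)
        (show L / 4 ≤ L / 2 by linarith)]
      have h10 := h9 (L / 8) (L / 4) le_rfl (by linarith)
      have h11 := h9 (L / 2) L (by linarith) le_rfl
      linarith
    rw [SW_const_mul] at h7
    have e3 : L / 2 / 2 = L / 4 := by ring
    rw [e3] at h4
    have h8 : 1 / 1024 ≤ SW (fun i => yy a b i ^ 2 * q0 L (Real.log i)) (L / 8) L := by
      linarith
    have h9 : 4 * c2 = 1 / C * (1 / 1024) := by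
      rw [hc2]
      field_simp
      norm_num
    rw [h9]
    exact mul_le_mul_of_nonneg_left h8 (by positivity)
  -- the part with the sign `τ`
  have hT3 : c2 ≤ SW (fun i => ((|yy a b i| + τ * yy a b i) / 2) * k i) (L / 8) L := by
    have e : SW (fun i => ((|yy a b i| + τ * yy a b i) / 2) * k i) (L / 8) L =
        1 / 2 * SW (fun i => |yy a b i| * k i) (L / 8) L +
          τ / 2 * SW (fun i => yy a b i * k i) (L / 8) L := by
      rw [← SW_const_mul, ← SW_const_mul, ← SW_add_fun]
      exact SW_congr fun i _ _ => by ring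
    rw [e]
    have h6 : |τ / 2 * SW (fun i => yy a b i * k i) (L / 8) L| ≤ c2 := by
      rw [abs_mul, abs_div, hτ1]
      norm_num
      linarith
    rw [abs_le] at h6
    linarith [h6.1]
  set c := c2 / 6 with hc
  have hT4 : SW (fun i => ((|yy a b i| + τ * yy a b i) / 2) * k i) (L / 8) L ≤
      SW (fun i => Real.exp (-(L / 16)) *
        (if c / √i ≤ τ * yy a b i then |yy a b i| else 0) + c * fone a b i) (L / 8) L := by
    refine SW_mono fun i h7 h8 => ?_
    obtain ⟨h9, h10, h11⟩ := hlog i h7 h8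
    obtain ⟨hk1, hk2⟩ := hk0 i h7 h8
    have hi0 : (0 : ℝ) < i := by exact_mod_cast h11
    have hs : 0 < √(i : ℝ) := Real.sqrt_pos.2 hi0
    have hfn := fone_nonneg (a := a) (b := b) i
    have hcp : 0 < c := by positivity
    have hty : |τ * yy a b i| = |yy a b i| := by rw [abs_mul, hτ1, one_mul]
    by_cases hg : GoodPrime a b i
    swap
    · have h12 : yy a b i = 0 := by unfold yy; rw [if_neg hg]
      rw [h12]
      simp only [abs_zero, mul_zero, add_zero, zero_div, zero_mul, ite_self, zero_add]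
      positivity
    by_cases h12 : c / √i ≤ τ * yy a b i
    · rw [if_pos h12]
      have h13 : k i ≤ Real.exp (-(L / 16)) := by
        refine hk2.trans ?_
        rw [← exp_half_log h11]
        exact Real.exp_le_exp.2 (by linarith)
      have h14 : (|yy a b i| + τ * yy a b i) / 2 ≤ |yy a b i| := by
        have := le_abs_self (τ * yy a b i)
        rw [hty] at this
        linarith
      have h15 : 0 ≤ (|yy a b i| + τ * yy a b i) / 2 := by
        have := neg_abs_le (τ * yy a b i)
        rw [hty] at this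
        linarith
      have h16 : (|yy a b i| + τ * yy a b i) / 2 * k i ≤ |yy a b i| * Real.exp (-(L / 16)) :=
        mul_le_mul h14 h13 hk1 (abs_nonneg _)
      have h17 : 0 ≤ c * fone a b i := by positivity
      linarith
    · rw [if_neg h12, mul_zero, zero_add]
      rw [not_le] at h12
      unfold fone
      rw [if_pos hg]
      have h14 : (|yy a b i| + τ * yy a b i) / 2 ≤ c / √i := by
        rcases le_total 0 (τ * yy a b i) with h15 | h15
        · rw [← hty, abs_of_nonneg h15]
          linarith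
        · rw [← hty, abs_of_nonpos h15]
          have : 0 ≤ c / √i := by positivity
          linarith
      calc (|yy a b i| + τ * yy a b i) / 2 * k i ≤ c / √i * (1 / √i) := by
            refine mul_le_mul h14 hk2 hk1 (by positivity)
        _ = c * (1 / i) := by
            rw [div_mul_div_comm, Real.mul_self_sqrt hi0.le]
            ring
  rw [SW_add_fun, SW_const_mul, SW_const_mul] at hT4
  have h6 : c * SW (fone a b) (L / 8) L ≤ c2 / 2 := by
    have : c * SW (fone a b) (L / 8) L ≤ c * 3 :=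
      mul_le_mul_of_nonneg_left h3 (by positivity)
    rw [hc] at this ⊢
    linarith
  have h7 : c2 / 2 ≤ Real.exp (-(L / 16)) *
      SW (fun i => if c / √i ≤ τ * yy a b i then |yy a b i| else 0) (L / 8) L := by
    linarith
  have h8 : Real.exp (L / 16) * (Real.exp (-(L / 16)) *
      SW (fun i => if c / √i ≤ τ * yy a b i then |yy a b i| else 0) (L / 8) L) =
      SW (fun i => if c / √i ≤ τ * yy a b i then |yy a b i| else 0) (L / 8) L := by
    rw [← mul_assoc, ← Real.exp_add]
    simp
  rw [← h8, mul_comm c]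
  refine mul_le_mul_of_nonneg_left ?_ (Real.exp_pos _).le
  rw [hc] at h7 ⊢
  linarith

end Pool.Agent.H564.BSD
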