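import Mathlib

/-! Abel's inequality, Kronecker's lemma, and almost sure convergence of series of independent
random variables; noise of a random sample. -/

set_option autoImplicit false

namespace Pool.Agent.H564.BSD

open Finset Filter Topology MeasureTheory ProbabilityTheory

/-- Abel's inequality for antitone weights. -/
theorem abel_anti {c v : ℕ → ℝ} {M : ℝ} (n : ℕ) (hc : ∀ i, i + 1 < n → c (i + 1) ≤ c i)
    (h0 : ∀ i, i < n → 0 ≤ c i) (h1 : c 0 ≤ 1)
    (hM : ∀ k, k ≤ n → |∑ i ∈ range k, v i| ≤ M) : |∑ i ∈ range n, c i * v i| ≤ M := by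
  have hM0 : 0 ≤ M := (abs_nonneg _).trans (hM 0 (Nat.zero_le _))
  rcases Nat.eq_zero_or_pos n with rfl | hn
  · simpa using hM0
  obtain ⟨m, rfl⟩ : ∃ m, n = m + 1 := ⟨n - 1, by omega⟩
  have h := Finset.sum_range_by_parts c v (m + 1)
  simp only [smul_eq_mul, Nat.add_sub_cancel] at h
  rw [h]
  have h2 : |∑ i ∈ range m, (c (i + 1) - c i) * ∑ j ∈ range (i + 1), v j| ≤
      ∑ i ∈ range m, (c i - c (i + 1)) * M := by
    refine (abs_sum_le_sum_abs _ _).trans (sum_le_sum fun i hi => ?_)
    rw [mem_range] at hi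
    rw [abs_mul]
    have h3 : c (i + 1) ≤ c i := hc i (by omega)
    rw [abs_of_nonpos (by linarith), neg_sub]
    exact mul_le_mul_of_nonneg_left (hM (i + 1) (by omega)) (by linarith)
  have h4 : ∑ i ∈ range m, (c i - c (i + 1)) * M = (c 0 - c m) * M := by
    rw [← sum_mul, sum_range_sub']
  have h5 : |c m * ∑ i ∈ range (m + 1), v i| ≤ c m * M := by
    rw [abs_mul, abs_of_nonneg (h0 m (by omega))]
    exact mul_le_mul_of_nonneg_left (hM (m + 1) le_rfl) (h0 m (by omega))
  calc _ ≤ |c m * ∑ i ∈ range (m + 1), v i| +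
        |∑ i ∈ range m, (c (i + 1) - c i) * ∑ j ∈ range (i + 1), v j| := abs_sub _ _
    _ ≤ c m * M + (c 0 - c m) * M := by rw [← h4]; exact add_le_add h5 h2
    _ = c 0 * M := by ring
    _ ≤ 1 * M := mul_le_mul_of_nonneg_right h1 hM0
    _ = M := one_mul M

/-- Abel's inequality for monotone weights. -/
theorem abel_mono {c v : ℕ → ℝ} {M : ℝ} (n : ℕ) (hc : Monotone c)
    (h0 : ∀ i, 0 ≤ c i) (hM : ∀ k, k ≤ n → |∑ i ∈ range k, v i| ≤ M) :
    |∑ i ∈ range n, c i * v i| ≤ 2 * c n * M := by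
  have hM0 : 0 ≤ M := (abs_nonneg _).trans (hM 0 (Nat.zero_le _))
  rcases Nat.eq_zero_or_pos n with rfl | hn
  · simpa using mul_nonneg (mul_nonneg zero_le_two (h0 0)) hM0
  obtain ⟨m, rfl⟩ : ∃ m, n = m + 1 := ⟨n - 1, by omega⟩
  have h := Finset.sum_range_by_parts c v (m + 1)
  simp only [smul_eq_mul, Nat.add_sub_cancel] at h
  rw [h]
  have h2 : |∑ i ∈ range m, (c (i + 1) - c i) * ∑ j ∈ range (i + 1), v j| ≤
      ∑ i ∈ range m, (c (i + 1) - c i) * M := by
    refine (abs_sum_le_sum_abs _ _).trans (sum_le_sum fun i hi => ?_)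
    rw [mem_range] at hi
    rw [abs_mul]
    have h3 : c i ≤ c (i + 1) := hc (Nat.le_succ i)
    rw [abs_of_nonneg (by linarith)]
    exact mul_le_mul_of_nonneg_left (hM (i + 1) (by omega)) (by linarith)
  have h4 : ∑ i ∈ range m, (c (i + 1) - c i) * M = (c m - c 0) * M := by
    rw [← sum_mul, sum_range_sub]
  have h5 : |c m * ∑ i ∈ range (m + 1), v i| ≤ c m * M := by
    rw [abs_mul, abs_of_nonneg (h0 m)]
    exact mul_le_mul_of_nonneg_left (hM (m + 1) le_rfl) (h0 m)
  calc _ ≤ |c m * ∑ i ∈ range (m + 1), v i| +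
        |∑ i ∈ range m, (c (i + 1) - c i) * ∑ j ∈ range (i + 1), v j| := abs_sub _ _
    _ ≤ c m * M + (c m - c 0) * M := by rw [← h4]; exact add_le_add h5 h2
    _ = (2 * c m - c 0) * M := by ring
    _ ≤ (2 * c (m + 1)) * M :=
        mul_le_mul_of_nonneg_right (by linarith [h0 0, hc (Nat.le_succ m)]) hM0

/-- **Kronecker's lemma.** -/
theorem kronecker {b z : ℕ → ℝ} (hb : Monotone b) (hb0 : ∀ n, 0 < b n)
    (h : ∃ s, Tendsto (fun n => ∑ i ∈ range n, z i / b i) atTop (𝓝 s)) (ε : ℝ) (hε : 0 < ε) :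
    ∃ C : ℝ, ∀ n, |∑ i ∈ range n, z i| ≤ ε * b n + C := by
  obtain ⟨s, hs⟩ := h
  have hc := hs.cauchySeq
  rw [Metric.cauchySeq_iff'] at hc
  obtain ⟨N, hN⟩ := hc (ε / 2) (by positivity)
  refine ⟨∑ i ∈ range N, |z i|, fun n => ?_⟩
  set v : ℕ → ℝ := fun i => if i < N then 0 else z i / b i with hv
  have hpart : ∀ k, |∑ i ∈ range k, v i| ≤ ε / 2 := by
    intro k
    rcases le_total k N with hk | hk
    · have : ∑ i ∈ range k, v i = 0 := by
        refine sum_eq_zero fun i hi => ?_
        rw [mem_range] at hi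
        simp only [hv]
        rw [if_pos (by omega)]
      rw [this, abs_zero]
      positivity
    · have h1 : ∑ i ∈ range k, v i =
          ∑ i ∈ range k, z i / b i - ∑ i ∈ range N, z i / b i := by
        rw [eq_sub_iff_add_eq, ← sum_range_add_sum_Ico v hk,
          ← sum_range_add_sum_Ico (fun i => z i / b i) hk]
        have e1 : ∑ i ∈ range N, v i = 0 := by
          refine sum_eq_zero fun i hi => ?_
          rw [mem_range] at hi
          simp only [hv]
          rw [if_pos hi]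
        have e2 : ∑ i ∈ Ico N k, v i = ∑ i ∈ Ico N k, z i / b i := by
          refine sum_congr rfl fun i hi => ?_
          rw [mem_Ico] at hi
          simp only [hv]
          rw [if_neg (by omega)]
        rw [e1, e2]
        ring
      rw [h1]
      have h2 := hN k hk
      rw [Real.dist_eq] at h2
      exact h2.le
  have h3 := abel_mono (v := v) n hb (fun i => (hb0 i).le) fun k _ => hpart k
  have h4 : ∀ i, z i = b i * v i + if i < N then z i else 0 := by
    intro i
    simp only [hv]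
    split_ifs
    · ring
    · have := (hb0 i).ne'
      field_simp
      ring
  have h5 : |∑ i ∈ range n, (if i < N then z i else 0)| ≤ ∑ i ∈ range N, |z i| := by
    refine (abs_sum_le_sum_abs _ _).trans ?_
    have e : ∀ i, |if i < N then z i else 0| = if i < N then |z i| else 0 := by
      intro i
      split_ifs <;> simp
    simp only [e]
    rw [← sum_filter]
    refine sum_le_sum_of_subset_of_nonneg ?_ fun _ _ _ => abs_nonneg _
    intro i hi
    rw [mem_filter] at hi
    exact mem_range.2 hi.2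
  calc |∑ i ∈ range n, z i| = |∑ i ∈ range n, b i * v i +
        ∑ i ∈ range n, (if i < N then z i else 0)| := by
        rw [← sum_add_distrib]
        exact congrArg _ (sum_congr rfl fun i _ => h4 i)
    _ ≤ |∑ i ∈ range n, b i * v i| + |∑ i ∈ range n, (if i < N then z i else 0)| :=
        abs_add_le _ _
    _ ≤ 2 * b n * (ε / 2) + ∑ i ∈ range N, |z i| := add_le_add h3 h5
    _ = ε * b n + ∑ i ∈ range N, |z i| := by ring

/-- **Kolmogorov's theorem on series** of independent bounded random variables with mean zero and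
summable variances. -/
theorem kolmogorov {Ω : Type*} [MeasurableSpace Ω] {μ : Measure Ω} [IsProbabilityMeasure μ]
    {Z : ℕ → Ω → ℝ} (hm : ∀ n, StronglyMeasurable (Z n)) (hb : ∀ n, ∃ C, ∀ ω, |Z n ω| ≤ C)
    (hind : iIndepFun Z μ) (h0 : ∀ n, ∫ ω, Z n ω ∂μ = 0)
    (hs : Summable fun n => ∫ ω, Z n ω ^ 2 ∂μ) :
    ∀ᵐ ω ∂μ, ∃ c, Tendsto (fun n => ∑ i ∈ range n, Z i ω) atTop (𝓝 c) := by
  have hL2 : ∀ n, MemLp (Z n) 2 μ := by
    intro n
    obtain ⟨C, hC⟩ := hb n
    exact MemLp.of_bound (hm n).aestronglyMeasurable C (ae_of_all _ fun ω => by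
      rw [Real.norm_eq_abs]; exact hC ω)
  have hint : ∀ n, Integrable (Z n) μ := fun n => (hL2 n).integrable one_le_two
  set f : ℕ → Ω → ℝ := fun n ω => ∑ i ∈ range (n + 1), Z i ω with hf
  have hfeq : ∀ n, f n = ∑ i ∈ range (n + 1), Z i := by
    intro n; funext ω; simp [hf]
  have hfL2 : ∀ n, MemLp (f n) 2 μ := by
    intro n
    rw [hfeq]
    exact memLp_finset_sum' _ fun i _ => hL2 i
  have hfint : ∀ n, Integrable (f n) μ := fun n => (hfL2 n).integrable one_le_two
  have hmart : Martingale f (Filtration.natural Z hm) μ := by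
    refine martingale_nat ?_ hfint fun n => ?_
    · intro n
      rw [hfeq]
      refine Finset.stronglyMeasurable_sum _ fun i hi => ?_
      rw [mem_range] at hi
      exact (Filtration.stronglyAdapted_natural hm i).mono
        ((Filtration.natural Z hm).mono (by omega))
    · have e : f (n + 1) = f n + Z (n + 1) := by
        rw [hfeq, hfeq, sum_range_succ]
      rw [e]
      have h1 := condExp_add (hfint n) (hint (n + 1)) (Filtration.natural Z hm n)
      have h2 : μ[f n | Filtration.natural Z hm n] = f n := by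
        refine condExp_of_stronglyMeasurable _ ?_ (hfint n)
        rw [hfeq]
        refine Finset.stronglyMeasurable_sum _ fun i hi => ?_
        rw [mem_range] at hi
        exact (Filtration.stronglyAdapted_natural hm i).mono
          ((Filtration.natural Z hm).mono (by omega))
      have h3 := iIndepFun.condExp_natural_ae_eq_of_lt hm hind (Nat.lt_succ_self n)
      rw [h2] at h1
      filter_upwards [h1, h3] with ω h4 h5
      rw [h4, Pi.add_apply, h5, h0 (n + 1), add_zero]
  have hvar : ∀ n, ∫ ω, f n ω ^ 2 ∂μ ≤ ∑' n, ∫ ω, Z n ω ^ 2 ∂μ := by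
    intro n
    have h1 : ∫ ω, f n ω ∂μ = 0 := by
      simp only [hf]
      rw [integral_finset_sum _ fun i _ => hint i]
      exact sum_eq_zero fun i _ => h0 i
    have h2 : variance (f n) μ = ∑ i ∈ range (n + 1), variance (Z i) μ := by
      rw [hfeq]
      exact IndepFun.variance_sum (fun i _ => hL2 i) fun i _ j _ hij => hind.indepFun hij
    have h3 : variance (f n) μ = ∫ ω, f n ω ^ 2 ∂μ := by
      rw [variance_of_integral_eq_zero (hfL2 n).aestronglyMeasurable.aemeasurable h1]
    have h4 : ∀ i, variance (Z i) μ = ∫ ω, Z i ω ^ 2 ∂μ := by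
      intro i
      rw [variance_of_integral_eq_zero (hL2 i).aestronglyMeasurable.aemeasurable (h0 i)]
    rw [← h3, h2]
    simp only [h4]
    exact hs.sum_le_tsum _ fun i _ => integral_nonneg fun ω => sq_nonneg _
  set V : ℝ := ∑' n, ∫ ω, Z n ω ^ 2 ∂μ with hV
  have hV0 : 0 ≤ V := tsum_nonneg fun n => integral_nonneg fun ω => sq_nonneg _
  have hbd : ∀ n, eLpNorm (f n) 1 μ ≤ (Real.toNNReal (1 + V) : NNReal) := by
    intro n
    rw [eLpNorm_one_eq_lintegral_enorm]
    have h1 : ∫⁻ ω, ‖f n ω‖ₑ ∂μ = ENNReal.ofReal (∫ ω, ‖f n ω‖ ∂μ) := by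
      rw [ofReal_integral_norm_eq_lintegral_enorm (hfint n)]
    rw [h1]
    refine ENNReal.ofReal_le_ofReal ?_
    have hi2 : Integrable (fun ω => f n ω ^ 2) μ := (hfL2 n).integrable_sq
    calc ∫ ω, ‖f n ω‖ ∂μ ≤ ∫ ω, (1 + f n ω ^ 2) ∂μ := by
          refine integral_mono (hfint n).norm ((integrable_const 1).add hi2) fun ω => ?_
          simp only [Real.norm_eq_abs]
          nlinarith [sq_abs (f n ω), sq_nonneg (|f n ω| - 1), abs_nonneg (f n ω)]
      _ = 1 + ∫ ω, f n ω ^ 2 ∂μ := by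
          rw [integral_add (integrable_const 1) hi2]
          simp
      _ ≤ 1 + V := by linarith [hvar n]
  have hconv := hmart.submartingale.exists_ae_tendsto_of_bdd hbd
  filter_upwards [hconv] with ω hω
  obtain ⟨c, hc⟩ := hω
  refine ⟨c, ?_⟩
  rw [← tendsto_add_atTop_iff_nat 1]
  exact hc

open Classical in
/-- The weights of a random sample: `1 / δ_p` if `p` is in the sample, `0` otherwise. -/
noncomputable def wt {Ω : Type*} (A : ℕ → Set Ω) (δ : ℕ → ℝ) (ω : Ω) (p : ℕ) : ℝ :=
  if ω ∈ A p then 1 / δ p else 0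

/-- The noise of a random sample is small. -/
theorem noise {Ω : Type*} [MeasurableSpace Ω] {μ : Measure Ω} [IsProbabilityMeasure μ]
    {A : ℕ → Set Ω} (hA : ∀ p, MeasurableSet (A p)) (hind : iIndepSet A μ)
    {δ : ℕ → ℝ} (hδ0 : ∀ p, 0 < δ p) (hδ1 : ∀ p, δ p ≤ 1)
    (hμ : ∀ p, μ (A p) = ENNReal.ofReal (δ p)) {y b : ℕ → ℝ} (hb : Monotone b)
    (hb0 : ∀ n, 0 < b n) (hs : Summable fun n => y n ^ 2 / (δ n * b n ^ 2)) :
    ∀ᵐ ω ∂μ, ∀ ε : ℝ, 0 < ε → ∃ C : ℝ, ∀ n,
      |∑ i ∈ range n, (wt A δ ω i - 1) * y i| ≤ ε * b n + C := by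
  set ξ : ℕ → Ω → ℝ := fun n => (A n).indicator fun _ => (1 : ℝ) with hξ
  have hξm : ∀ n, Measurable (ξ n) := fun n => measurable_const.indicator (hA n)
  have hξi : iIndepFun ξ μ := hind.iIndepFun_indicator
  have hreal : ∀ n, μ.real (A n) = δ n := by
    intro n
    rw [measureReal_def, hμ, ENNReal.toReal_ofReal (hδ0 n).le]
  have hξint : ∀ n, ∫ ω, ξ n ω ∂μ = δ n := by
    intro n
    simp only [hξ]
    rw [integral_indicator_const _ (hA n), hreal, smul_eq_mul, mul_one]
  set g : ℕ → ℝ → ℝ := fun n t => (t / δ n - 1) * y n / b n with hg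
  have hgm : ∀ n, Measurable (g n) := by
    intro n
    simp only [hg]
    fun_prop
  set Z : ℕ → Ω → ℝ := fun n ω => g n (ξ n ω) with hZ
  have hZi : iIndepFun Z μ := hξi.comp g hgm
  have hZm : ∀ n, StronglyMeasurable (Z n) := fun n => ((hgm n).comp (hξm n)).stronglyMeasurable
  have hξ01 : ∀ n ω, ξ n ω = 0 ∨ ξ n ω = 1 := by
    intro n ω
    simp only [hξ]
    by_cases h : ω ∈ A n
    · right; rw [Set.indicator_of_mem h]
    · left; rw [Set.indicator_of_notMem h]
  have hξi1 : ∀ n, Integrable (ξ n) μ := by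
    intro n
    exact (integrable_const (1 : ℝ)).indicator (hA n)
  have hZb : ∀ n, ∃ C, ∀ ω, |Z n ω| ≤ C := by
    intro n
    refine ⟨|g n 0| + |g n 1|, fun ω => ?_⟩
    simp only [hZ]
    rcases hξ01 n ω with h | h <;> rw [h]
    · linarith [abs_nonneg (g n 1)]
    · linarith [abs_nonneg (g n 0)]
  have hZ0 : ∀ n, ∫ ω, Z n ω ∂μ = 0 := by
    intro n
    have e : ∀ ω, Z n ω = (y n / b n / δ n) * ξ n ω - y n / b n := by
      intro ω
      simp only [hZ, hg]
      ring
    simp only [e]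
    rw [integral_sub ((hξi1 n).const_mul _) (integrable_const _), integral_const_mul, hξint]
    simp only [integral_const, probReal_univ, smul_eq_mul, one_mul]
    have := (hδ0 n).ne'
    field_simp
    ring
  have hZ2 : ∀ n, ∫ ω, Z n ω ^ 2 ∂μ ≤ y n ^ 2 / (δ n * b n ^ 2) := by
    intro n
    have e : ∀ ω, Z n ω ^ 2 = (y n / b n) ^ 2 * ((1 / δ n ^ 2 - 2 / δ n) * ξ n ω + 1) := by
      intro ω
      simp only [hZ, hg]
      rcases hξ01 n ω with h | h <;> rw [h]
      · ring
      · have := (hδ0 n).ne'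
        field_simp
        ring
    simp only [e]
    rw [integral_const_mul, integral_add ((hξi1 n).const_mul _) (integrable_const _),
      integral_const_mul, hξint]
    simp only [integral_const, probReal_univ, smul_eq_mul, one_mul]
    have h1 : (1 / δ n ^ 2 - 2 / δ n) * δ n + 1 ≤ 1 / δ n := by
      have h2 : (1 / δ n ^ 2 - 2 / δ n) * δ n = 1 / δ n - 2 := by
        have := (hδ0 n).ne'
        field_simp
      rw [h2]
      linarith
    calc (y n / b n) ^ 2 * ((1 / δ n ^ 2 - 2 / δ n) * δ n + 1)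
        ≤ (y n / b n) ^ 2 * (1 / δ n) := mul_le_mul_of_nonneg_left h1 (sq_nonneg _)
      _ = y n ^ 2 / (δ n * b n ^ 2) := by
          have h3 := (hδ0 n).ne'
          have h4 := (hb0 n).ne'
          field_simp
  have hsum : Summable fun n => ∫ ω, Z n ω ^ 2 ∂μ :=
    Summable.of_nonneg_of_le (fun n => integral_nonneg fun ω => sq_nonneg _) hZ2 hs
  filter_upwards [kolmogorov hZm hZb hZi hZ0 hsum] with ω hω ε hε
  have hw : ∀ i, Z i ω = (wt A δ ω i - 1) * y i / b i := by
    intro i
    simp only [hZ, hg, hξ, wt]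
    by_cases h : ω ∈ A i
    · rw [Set.indicator_of_mem h, if_pos h]
    · rw [Set.indicator_of_notMem h, if_neg h, zero_div]
  simp only [hw] at hω
  exact kronecker hb hb0 hω ε hε

end Pool.Agent.H564.BSD
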