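import Pool.Agent.H564.BSD.Const

/-! Smoothed sums of the logarithms of the local factors with the weight `1/√p` are small if the
Riesz mean of order one is small. -/

set_option autoImplicit false

namespace Pool.Agent.H564.BSD

open Pool.Agent.W263.BSD Filter Topology Classical MeasureTheory
open Pool.Agent.Results.MP_8b7eba_nt.OneSidedRieszMeans

variable {a b : ℤ}

noncomputable def q0 (L u : ℝ) : ℝ := (u - L / 8) ^ 2 * (L - u) ^ 2 / L ^ 4
noncomputable def q1 (L u : ℝ) : ℝ :=
  (2 * (u - L / 8) * (L - u) ^ 2 - 2 * (u - L / 8) ^ 2 * (L - u)) / L ^ 4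
noncomputable def q2 (L u : ℝ) : ℝ :=
  (2 * (L - u) ^ 2 - 8 * (u - L / 8) * (L - u) + 2 * (u - L / 8) ^ 2) / L ^ 4
noncomputable def g0 (L u : ℝ) : ℝ := Real.exp (-(u / 2)) * q0 L u
noncomputable def g1 (L u : ℝ) : ℝ := Real.exp (-(u / 2)) * (q1 L u - q0 L u / 2)
noncomputable def g2 (L u : ℝ) : ℝ := Real.exp (-(u / 2)) * (q2 L u - q1 L u + q0 L u / 4)

theorem q0_deriv (L u : ℝ) : HasDerivAt (q0 L) (q1 L u) u := by
  have h1 : HasDerivAt (fun u : ℝ => u - L / 8) 1 u := (hasDerivAt_id' u).sub_const _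
  have h2 : HasDerivAt (fun u : ℝ => L - u) (-1) u := (hasDerivAt_id' u).const_sub L
  have h3 := ((h1.fun_pow 2).fun_mul (h2.fun_pow 2)).div_const (L ^ 4)
  refine h3.congr_deriv ?_
  simp only [q1]
  push_cast
  ring

theorem q1_deriv (L u : ℝ) : HasDerivAt (q1 L) (q2 L u) u := by
  have h1 : HasDerivAt (fun u : ℝ => u - L / 8) 1 u := (hasDerivAt_id' u).sub_const _
  have h2 : HasDerivAt (fun u : ℝ => L - u) (-1) u := (hasDerivAt_id' u).const_sub L
  have h3 := (((h1.const_mul 2).fun_mul (h2.fun_pow 2)).fun_sub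
    (((h1.fun_pow 2).const_mul 2).fun_mul h2)).div_const (L ^ 4)
  refine h3.congr_deriv ?_
  simp only [q2]
  push_cast
  ring

theorem exp_deriv (u : ℝ) : HasDerivAt (fun u : ℝ => Real.exp (-(u / 2)))
    (-(1 / 2) * Real.exp (-(u / 2))) u := by
  have h1 : HasDerivAt (fun u : ℝ => -(u / 2)) (-(1 / 2)) u :=
    ((hasDerivAt_id' u).div_const 2).fun_neg
  refine h1.exp.congr_deriv ?_
  ring

theorem g0_deriv (L u : ℝ) : HasDerivAt (g0 L) (g1 L u) u := by
  have h := (exp_deriv u).fun_mul (q0_deriv L u)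
  refine h.congr_deriv ?_
  simp only [g1]
  ring

theorem g1_deriv (L u : ℝ) : HasDerivAt (g1 L) (g2 L u) u := by
  have h := (exp_deriv u).fun_mul ((q1_deriv L u).fun_sub ((q0_deriv L u).div_const 2))
  refine h.congr_deriv ?_
  simp only [g2]
  ring

theorem g2_cont (L : ℝ) : Continuous (g2 L) := by
  unfold g2 q2 q1 q0
  fun_prop

theorem int_shift {L v s t : ℝ} : ∫ u in s..t, (u - v) * g2 L u =
    ((t - v) * g1 L t - g0 L t) - ((s - v) * g1 L s - g0 L s) := by
  have hd : ∀ u ∈ Set.uIcc s t, HasDerivAt (fun u => (u - v) * g1 L u - g0 L u)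
      ((u - v) * g2 L u) u := by
    intro u _
    have h1 : HasDerivAt (fun u : ℝ => u - v) 1 u := (hasDerivAt_id' u).sub_const _
    have h2 := (h1.fun_mul (g1_deriv L u)).fun_sub (g0_deriv L u)
    refine h2.congr_deriv ?_
    ring
  rw [intervalIntegral.integral_eq_sub_of_hasDerivAt hd]
  exact ((continuous_id.sub continuous_const).mul (g2_cont L)).intervalIntegrable _ _

theorem g_end {L : ℝ} : g0 L L = 0 ∧ g1 L L = 0 ∧ g0 L (L / 8) = 0 ∧ g1 L (L / 8) = 0 := by
  unfold g0 g1 q1 q0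
  refine ⟨?_, ?_, ?_, ?_⟩ <;> simp

theorem kernel {L v : ℝ} (hL : 0 < L) (hv : v ≤ L) :
    ∫ u in (L / 8)..L, max (u - v) 0 * g2 L u = if L / 8 < v then g0 L v else 0 := by
  obtain ⟨h1, h2, h3, h4⟩ := g_end (L := L)
  have hc : Continuous fun u : ℝ => max (u - v) 0 * g2 L u :=
    ((continuous_id.sub continuous_const).max continuous_const).mul (g2_cont L)
  split_ifs with h
  · have e1 : ∫ u in (L / 8)..v, max (u - v) 0 * g2 L u = 0 := by
      have : ∫ u in (L / 8)..v, max (u - v) 0 * g2 L u = ∫ u in (L / 8)..v, (0 : ℝ) := by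
        refine intervalIntegral.integral_congr fun u hu => ?_
        rw [Set.uIcc_of_le h.le] at hu
        show max (u - v) 0 * g2 L u = 0
        rw [max_eq_right (by linarith [hu.2]), zero_mul]
      rw [this, intervalIntegral.integral_zero]
    have e2 : ∫ u in v..L, max (u - v) 0 * g2 L u = ∫ u in v..L, (u - v) * g2 L u := by
      refine intervalIntegral.integral_congr fun u hu => ?_
      rw [Set.uIcc_of_le hv] at hu
      show max (u - v) 0 * g2 L u = _
      rw [max_eq_left (by linarith [hu.1])]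
    rw [← intervalIntegral.integral_add_adjacent_intervals (hc.intervalIntegrable _ v)
      (hc.intervalIntegrable v _), e1, e2, int_shift, h1, h2]
    ring
  · have e2 : ∫ u in (L / 8)..L, max (u - v) 0 * g2 L u =
        ∫ u in (L / 8)..L, (u - v) * g2 L u := by
      refine intervalIntegral.integral_congr fun u hu => ?_
      rw [Set.uIcc_of_le (by linarith)] at hu
      show max (u - v) 0 * g2 L u = _
      rw [max_eq_left (by linarith [hu.1])]
    rw [e2, int_shift, h1, h2, h3, h4]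
    ring

theorem q_bounds {L u : ℝ} (hL : 1 ≤ L) (h1 : L / 8 ≤ u) (h2 : u ≤ L) :
    0 ≤ q0 L u ∧ q0 L u ≤ 1 ∧ |q1 L u| ≤ 4 ∧ |q2 L u| ≤ 12 := by
  have hL0 : 0 < L := by linarith
  set s : ℝ := (u - L / 8) / L with hs
  set t : ℝ := (L - u) / L with ht
  have hs0 : 0 ≤ s := div_nonneg (by linarith) hL0.le
  have ht0 : 0 ≤ t := div_nonneg (by linarith) hL0.le
  have hs1 : s ≤ 1 := by rw [hs, div_le_one hL0]; linarith
  have ht1 : t ≤ 1 := by rw [ht, div_le_one hL0]; linarith
  have e0 : q0 L u = s ^ 2 * t ^ 2 := by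
    unfold q0
    rw [hs, ht]
    field_simp
  have e1 : q1 L u = (2 * s * t ^ 2 - 2 * s ^ 2 * t) / L := by
    unfold q1
    rw [hs, ht]
    field_simp
  have e2 : q2 L u = (2 * t ^ 2 - 8 * s * t + 2 * s ^ 2) / L ^ 2 := by
    unfold q2
    rw [hs, ht]
    field_simp
  have hst : 0 ≤ s * t := mul_nonneg hs0 ht0
  have hst1 : s * t ≤ 1 := by nlinarith
  have hs2 : s ^ 2 ≤ 1 := by nlinarith
  have ht2 : t ^ 2 ≤ 1 := by nlinarith
  refine ⟨?_, ?_, ?_, ?_⟩
  · rw [e0]; positivity
  · rw [e0]; nlinarith [sq_nonneg s, sq_nonneg t]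
  · rw [e1, abs_div, abs_of_pos hL0, div_le_iff₀ hL0]
    have h3 : |2 * s * t ^ 2 - 2 * s ^ 2 * t| ≤ 4 := by
      have e : 2 * s * t ^ 2 - 2 * s ^ 2 * t = 2 * (s * t) * (t - s) := by ring
      rw [e, abs_mul, abs_of_nonneg (by positivity)]
      have : |t - s| ≤ 1 := by rw [abs_le]; constructor <;> linarith
      nlinarith [abs_nonneg (t - s)]
    nlinarith
  · rw [e2, abs_div, abs_of_pos (by positivity : (0 : ℝ) < L ^ 2), div_le_iff₀ (by positivity)]
    have h3 : |2 * t ^ 2 - 8 * s * t + 2 * s ^ 2| ≤ 12 := by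
      rw [abs_le]
      constructor <;> nlinarith
    nlinarith

theorem g2_bound {L u : ℝ} (hL : 1 ≤ L) (h1 : L / 8 ≤ u) (h2 : u ≤ L) :
    |g2 L u| ≤ 17 * Real.exp (-(L / 16)) := by
  obtain ⟨h3, h4, h5, h6⟩ := q_bounds hL h1 h2
  unfold g2
  rw [abs_mul, abs_of_pos (Real.exp_pos _)]
  have h7 : Real.exp (-(u / 2)) ≤ Real.exp (-(L / 16)) := Real.exp_le_exp.2 (by linarith)
  have h8 : |q2 L u - q1 L u + q0 L u / 4| ≤ 17 := by
    rw [abs_le] at h5 h6 ⊢
    constructor <;> linarith
  calc Real.exp (-(u / 2)) * |q2 L u - q1 L u + q0 L u / 4|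
      ≤ Real.exp (-(L / 16)) * 17 := mul_le_mul h7 h8 (abs_nonneg _) (Real.exp_pos _).le
    _ = 17 * Real.exp (-(L / 16)) := by ring

theorem riesz_one {L u : ℝ} (hu : 0 < u) (huL : u ≤ L) :
    u * riesz a b 1 (Real.exp u) = ∑ i ∈ Finset.range (⌊Real.exp L⌋₊ + 1),
      max (u - Real.log i) 0 * yy a b i := by
  rw [riesz_eq, Real.log_exp, Finset.mul_sum]
  have hsub : Finset.range (⌊Real.exp u⌋₊ + 1) ⊆ Finset.range (⌊Real.exp L⌋₊ + 1) := by
    refine Finset.range_subset_range.2 ?_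
    have := Nat.floor_le_floor (Real.exp_le_exp.2 huL)
    omega
  rw [← Finset.sum_subset hsub]
  · refine Finset.sum_congr rfl fun i hi => ?_
    rw [Finset.mem_range] at hi
    rcases Nat.eq_zero_or_pos i with rfl | h0
    · have : yy a b 0 = 0 := yy_zero_of_not_prime Nat.not_prime_zero
      rw [this]; ring
    · have h1 : Real.log i ≤ u := by
        rw [Real.log_le_iff_le_exp (by exact_mod_cast h0)]
        exact (Nat.cast_le.2 (Nat.lt_succ_iff.1 hi)).trans (Nat.floor_le (Real.exp_pos u).le)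
      rw [max_eq_left (by linarith), Real.rpow_one]
      field_simp
  · intro i _ hi
    rw [Finset.mem_range, not_lt] at hi
    have h0 : 0 < i := by omega
    have h1 : u ≤ Real.log i := by
      rw [Real.le_log_iff_exp_le (by exact_mod_cast h0)]
      have := Nat.lt_floor_add_one (Real.exp u)
      have h2 : ((⌊Real.exp u⌋₊ + 1 : ℕ) : ℝ) ≤ i := by exact_mod_cast hi
      push_cast at h2
      linarith
    rw [max_eq_right (by linarith), zero_mul]

theorem smooth_eq {L : ℝ} (hL : 0 < L) :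
    ∑ i ∈ Finset.range (⌊Real.exp L⌋₊ + 1),
      yy a b i * (if L / 8 < Real.log i then g0 L (Real.log i) else 0) =
    ∫ u in (L / 8)..L, g2 L u * (u * riesz a b 1 (Real.exp u)) := by
  have h1 : ∫ u in (L / 8)..L, g2 L u * (u * riesz a b 1 (Real.exp u)) =
      ∫ u in (L / 8)..L, ∑ i ∈ Finset.range (⌊Real.exp L⌋₊ + 1),
        yy a b i * (max (u - Real.log i) 0 * g2 L u) := by
    refine intervalIntegral.integral_congr fun u hu => ?_
    rw [Set.uIcc_of_le (by linarith)] at hu
    show g2 L u * (u * riesz a b 1 (Real.exp u)) = _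
    rw [riesz_one (by linarith [hu.1]) hu.2, Finset.mul_sum]
    exact Finset.sum_congr rfl fun i _ => by ring
  rw [h1, intervalIntegral.integral_finsetSum]
  · refine Finset.sum_congr rfl fun i hi => ?_
    rw [intervalIntegral.integral_const_mul, kernel hL]
    rw [Finset.mem_range] at hi
    rcases Nat.eq_zero_or_pos i with rfl | h0
    · simp only [Nat.cast_zero, Real.log_zero]; exact hL.le
    · rw [Real.log_le_iff_le_exp (by exact_mod_cast h0)]
      exact (Nat.cast_le.2 (Nat.lt_succ_iff.1 hi)).trans (Nat.floor_le (Real.exp_pos L).le)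
  · intro i _
    refine Continuous.intervalIntegrable ?_ _ _
    exact continuous_const.mul
      (((continuous_id.sub continuous_const).max continuous_const).mul (g2_cont L))

theorem smooth_small (h : ∀ᶠ x : ℝ in atTop, |riesz a b 1 x| ≤ Real.log x) {ε : ℝ} (hε : 0 < ε) :
    ∀ᶠ L : ℝ in atTop, |∑ i ∈ Finset.range (⌊Real.exp L⌋₊ + 1),
      yy a b i * (if L / 8 < Real.log i then g0 L (Real.log i) else 0)| ≤ ε := by
  obtain ⟨X, hX⟩ := eventually_atTop.1 h
  have h2 : Tendsto (fun L : ℝ => 17 * (L ^ 3 * Real.exp (-((1 / 16) * L)))) atTop (𝓝 (17 * 0)) := by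
    refine Tendsto.const_mul 17 ?_
    have := Real.tendsto_pow_mul_exp_neg_atTop_nhds_zero 3
    have h3 : Tendsto (fun L : ℝ => (1 / 16) * L) atTop atTop :=
      tendsto_id.const_mul_atTop (by norm_num)
    have h4 := (this.comp h3).const_mul (16 ^ 3 : ℝ)
    rw [mul_zero] at h4
    refine h4.congr fun L => ?_
    simp only [Function.comp_apply]
    ring
  rw [mul_zero] at h2
  filter_upwards [h2.eventually (gt_mem_nhds hε), eventually_ge_atTop 1,
    eventually_ge_atTop (8 * |X| + 8)] with L h3 hL1 hLX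
  rw [smooth_eq (by linarith)]
  have h4 : ∀ u ∈ Set.uIoc (L / 8) L, ‖g2 L u * (u * riesz a b 1 (Real.exp u))‖ ≤
      17 * Real.exp (-(L / 16)) * L ^ 2 := by
    intro u hu
    rw [Set.uIoc_of_le (by linarith)] at hu
    have hu0 : 0 < u := by linarith [hu.1]
    rw [norm_mul, norm_mul, Real.norm_eq_abs, Real.norm_eq_abs, Real.norm_eq_abs, abs_of_pos hu0]
    have h5 := g2_bound hL1 hu.1.le hu.2
    have h6 : |riesz a b 1 (Real.exp u)| ≤ u := by
      have h7 : X ≤ Real.exp u := by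
        have h8 := Real.add_one_le_exp u
        have h9 := le_abs_self X
        linarith [hu.1]
      have := hX _ h7
      rwa [Real.log_exp] at this
    have h10 : u * |riesz a b 1 (Real.exp u)| ≤ L ^ 2 := by
      calc u * |riesz a b 1 (Real.exp u)| ≤ u * u := mul_le_mul_of_nonneg_left h6 hu0.le
        _ ≤ L ^ 2 := by nlinarith [hu.2]
    exact mul_le_mul h5 h10 (by positivity) (by positivity)
  have h5 := intervalIntegral.norm_integral_le_of_norm_le_const h4
  rw [Real.norm_eq_abs] at h5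
  refine h5.trans ?_
  rw [abs_of_nonneg (by linarith)]
  have h6 : 17 * Real.exp (-(L / 16)) * L ^ 2 * (L - L / 8) ≤
      17 * (L ^ 3 * Real.exp (-((1 / 16) * L))) := by
    have e : -(L / 16) = -((1 / 16) * L) := by ring
    rw [e]
    have h7 : 0 ≤ 17 * Real.exp (-((1 / 16) * L)) * L ^ 2 := by positivity
    calc 17 * Real.exp (-((1 / 16) * L)) * L ^ 2 * (L - L / 8)
        ≤ 17 * Real.exp (-((1 / 16) * L)) * L ^ 2 * L :=
          mul_le_mul_of_nonneg_left (by linarith) h7
      _ = _ := by ring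
  linarith

end Pool.Agent.H564.BSD
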