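import Pool.Agent.H564.BSD.Defs
import Pool.Agent.H564.BSD.Prob

/-! Transfer of the one-sided theorem to weighted means. -/

set_option autoImplicit false

namespace Pool.Agent.H564.BSD

open Pool.Agent.W263.BSD Filter Topology Classical MeasureTheory Set
open CongruenceSubgroup UpperHalfPlane
open scoped MatrixGroups
open Pool.Agent.Results.MP_8b7eba_nt.OneSidedRieszMeans

/-- the logarithm of the local factor, `0` at the other integers -/
noncomputable def yy (a b : ℤ) (p : ℕ) : ℝ :=
  if GoodPrime a b p then Real.log (((pointCount a b p : ℝ) + 1) / p) else 0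

/-- comparison function -/
noncomputable def LL (n : ℕ) : ℝ := 1 + Real.log (1 + Real.log (1 + n))

theorem log_one_add_nonneg (n : ℕ) : 0 ≤ Real.log (1 + (n : ℝ)) :=
  Real.log_nonneg (by have : (0 : ℝ) ≤ n := Nat.cast_nonneg n; linarith)

theorem LL_mono : Monotone LL := by
  intro m n hmn
  unfold LL
  have h1 : Real.log (1 + (m : ℝ)) ≤ Real.log (1 + n) :=
    Real.log_le_log (by positivity) (by have : (m : ℝ) ≤ n := by exact_mod_cast hmn
                                        linarith)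
  have h2 := log_one_add_nonneg m
  have h3 : Real.log (1 + Real.log (1 + (m : ℝ))) ≤ Real.log (1 + Real.log (1 + n)) :=
    Real.log_le_log (by linarith) (by linarith)
  linarith

theorem LL_pos (n : ℕ) : 1 ≤ LL n := by
  unfold LL
  have h2 := log_one_add_nonneg n
  have := Real.log_nonneg (x := 1 + Real.log (1 + (n : ℝ))) (by linarith)
  linarith

theorem LL_floor : ∀ᶠ x : ℝ in atTop, LL (⌊x⌋₊ + 1) ≤ 2 * Real.log (Real.log x) := by
  filter_upwards [eventually_ge_atTop 4, Real.tendsto_log_atTop.eventually_ge_atTop 9]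
    with x hx hl
  have hn : ((⌊x⌋₊ + 1 : ℕ) : ℝ) ≤ x + 1 := by
    push_cast
    linarith [Nat.floor_le (show (0 : ℝ) ≤ x by linarith)]
  have h1 : Real.log (1 + ((⌊x⌋₊ + 1 : ℕ) : ℝ)) ≤ 2 * Real.log x := by
    rw [← Real.log_rpow (by linarith)]
    refine Real.log_le_log (by positivity) ?_
    have : x ^ (2 : ℝ) = x ^ 2 := by norm_cast
    rw [this]
    nlinarith
  have h0 := log_one_add_nonneg (⌊x⌋₊ + 1)
  have h2 : Real.log (1 + Real.log (1 + ((⌊x⌋₊ + 1 : ℕ) : ℝ))) ≤
      2 * Real.log (Real.log x) - 1 := by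
    have h3 : 2 * Real.log (Real.log x) - 1 =
        Real.log (Real.log x ^ 2 / Real.exp 1) := by
      rw [Real.log_div (by positivity) (Real.exp_pos 1).ne', Real.log_exp, Real.log_pow]
      push_cast
      ring
    rw [h3]
    refine Real.log_le_log (by linarith) ?_
    rw [le_div_iff₀ (Real.exp_pos 1)]
    have he : Real.exp 1 ≤ 3 := by have := Real.exp_one_lt_d9; linarith
    have he0 := Real.exp_pos 1
    calc (1 + Real.log (1 + ((⌊x⌋₊ + 1 : ℕ) : ℝ))) * Real.exp 1
        ≤ (1 + 2 * Real.log x) * 3 := by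
          apply mul_le_mul (by linarith) he he0.le (by linarith)
      _ ≤ Real.log x ^ 2 := by nlinarith
  unfold LL
  linarith

theorem weight_anti {κ x : ℝ} (hκ : 0 ≤ κ) (hx : 1 < x) (v : ℕ → ℝ) {M : ℝ}
    (hM : ∀ k, k ≤ ⌊x⌋₊ + 1 → |∑ i ∈ Finset.range k, v i| ≤ M) :
    |∑ i ∈ Finset.range (⌊x⌋₊ + 1), (1 - Real.log i / Real.log x) ^ κ * v i| ≤ M := by
  have hlx : 0 < Real.log x := Real.log_pos hx
  have hle : ∀ i : ℕ, i < ⌊x⌋₊ + 1 → Real.log i / Real.log x ≤ 1 := by
    intro i hi
    rw [div_le_one hlx]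
    rcases Nat.eq_zero_or_pos i with rfl | h0
    · simp only [Nat.cast_zero, Real.log_zero]; exact hlx.le
    · refine Real.log_le_log (by exact_mod_cast h0) ?_
      exact (Nat.cast_le.2 (Nat.lt_succ_iff.1 hi)).trans (Nat.floor_le (by linarith))
  refine abel_anti (c := fun i : ℕ => (1 - Real.log i / Real.log x) ^ κ) (⌊x⌋₊ + 1) ?_ ?_ ?_ hM
  · intro i hi
    refine Real.rpow_le_rpow ?_ ?_ hκ
    · have := hle (i + 1) hi
      linarith
    · have h1 : Real.log (i : ℝ) ≤ Real.log ((i + 1 : ℕ) : ℝ) := by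
        rcases Nat.eq_zero_or_pos i with rfl | h0
        · simp
        · exact Real.log_le_log (by exact_mod_cast h0) (by push_cast; linarith)
      have h2 : Real.log (i : ℝ) / Real.log x ≤ Real.log ((i + 1 : ℕ) : ℝ) / Real.log x :=
        div_le_div_of_nonneg_right h1 hlx.le
      linarith
  · intro i hi
    have := hle i hi
    exact Real.rpow_nonneg (by linarith) κ
  · simp

theorem wriesz_eq (w : ℕ → ℝ) (a b : ℤ) (κ x : ℝ) : wriesz w a b κ x =
    ∑ i ∈ Finset.range (⌊x⌋₊ + 1), (1 - Real.log i / Real.log x) ^ κ * (w i * yy a b i) := by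
  unfold wriesz
  rw [Finset.sum_filter]
  refine Finset.sum_congr rfl fun i _ => ?_
  unfold yy
  split_ifs
  · ring
  · ring

theorem riesz_eq (a b : ℤ) (κ x : ℝ) : riesz a b κ x =
    ∑ i ∈ Finset.range (⌊x⌋₊ + 1), (1 - Real.log i / Real.log x) ^ κ * yy a b i := by
  unfold riesz
  rw [Finset.sum_filter]
  refine Finset.sum_congr rfl fun i _ => ?_
  unfold yy
  split_ifs
  · ring
  · ring

/-- the weights are close to `1` in the mean -/
def Close (w : ℕ → ℝ) (a b : ℤ) : Prop :=
  ∀ ε : ℝ, 0 < ε → ∃ C : ℝ, ∀ n, |∑ i ∈ Finset.range n, (w i - 1) * yy a b i| ≤ ε * LL n + C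

theorem Close.diff {w : ℕ → ℝ} {a b : ℤ} (h : Close w a b) {κ : ℝ} (hκ : 0 ≤ κ) {ε : ℝ}
    (hε : 0 < ε) : ∀ᶠ x : ℝ in atTop,
      |wriesz w a b κ x - riesz a b κ x| ≤ ε * Real.log (Real.log x) := by
  obtain ⟨C, hC⟩ := h (ε / 4) (by positivity)
  have hll : Tendsto (fun x : ℝ => Real.log (Real.log x)) atTop atTop :=
    Real.tendsto_log_atTop.comp Real.tendsto_log_atTop
  filter_upwards [eventually_gt_atTop 1, LL_floor, hll.eventually_ge_atTop (2 * C / ε)]
    with x hx h1 h2
  have h3 : wriesz w a b κ x - riesz a b κ x = ∑ i ∈ Finset.range (⌊x⌋₊ + 1),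
      (1 - Real.log i / Real.log x) ^ κ * ((w i - 1) * yy a b i) := by
    rw [wriesz_eq, riesz_eq, ← Finset.sum_sub_distrib]
    exact Finset.sum_congr rfl fun i _ => by ring
  rw [h3]
  refine (weight_anti hκ hx _ (M := ε / 4 * LL (⌊x⌋₊ + 1) + C) fun k hk => ?_).trans ?_
  · refine (hC k).trans ?_
    have := LL_mono hk
    have h4 : ε / 4 * LL k ≤ ε / 4 * LL (⌊x⌋₊ + 1) :=
      mul_le_mul_of_nonneg_left this (by positivity)
    linarith
  · have h5 : ε / 4 * LL (⌊x⌋₊ + 1) ≤ ε / 4 * (2 * Real.log (Real.log x)) :=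
      mul_le_mul_of_nonneg_left h1 (by positivity)
    have h6 : C ≤ ε / 2 * Real.log (Real.log x) := by
      have := mul_le_mul_of_nonneg_left h2 (show 0 ≤ ε / 2 by positivity)
      have e : ε / 2 * (2 * C / ε) = C := by field_simp
      rw [e] at this
      exact this
    linarith

theorem loglog_tendsto : Tendsto (fun x : ℝ => Real.log (Real.log x)) atTop atTop :=
  Real.tendsto_log_atTop.comp Real.tendsto_log_atTop

theorem loglog_small (K : ℝ) {θ : ℝ} (hθ : 0 < θ) : ∀ᶠ x : ℝ in atTop,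
    K * Real.log (Real.log x) ≤ x ^ θ := by
  have h := Pool.Agent.V11333.RieszOne.loglog_bound K 0 hθ
  filter_upwards [h] with x hx
  linarith

theorem main {w : ℕ → ℝ} {a b : ℤ} (hw : Close w a b) (hΔ : 4 * a ^ 3 + 27 * b ^ 2 ≠ 0)
    {F : ℂ → ℂ} (hF : IsLSeries a b F) : Decides w a b F := by
  obtain ⟨m, hm, h1, h2, -, h4, h5⟩ := result a b hΔ F hF
  have hll1 : ∀ᶠ x : ℝ in atTop, 1 ≤ Real.log (Real.log x) :=
    loglog_tendsto.eventually_ge_atTop 1
  have hsub : ∀ κ : ℝ, 0 ≤ κ → (UpperSubpower (wriesz w a b κ) ↔ UpperSubpower (riesz a b κ)) := by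
    intro κ hκ
    constructor
    · intro h ε hε
      filter_upwards [h (ε / 2) (by positivity), hw.diff hκ one_pos,
        loglog_small 1 (show 0 < ε / 2 by positivity), eventually_ge_atTop 2,
        (tendsto_rpow_atTop (show 0 < ε / 2 by positivity)).eventually_ge_atTop 2]
        with x hx h3 h4 h6 h7
      rw [abs_le] at h3
      have h8 : x ^ ε = x ^ (ε / 2) * x ^ (ε / 2) := by
        rw [← Real.rpow_add (by linarith)]
        congr 1; ring
      rw [h8]
      nlinarith
    · intro h ε hε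
      filter_upwards [h (ε / 2) (by positivity), hw.diff hκ one_pos,
        loglog_small 1 (show 0 < ε / 2 by positivity), eventually_ge_atTop 2,
        (tendsto_rpow_atTop (show 0 < ε / 2 by positivity)).eventually_ge_atTop 2]
        with x hx h3 h4 h6 h7
      rw [abs_le] at h3
      have h8 : x ^ ε = x ^ (ε / 2) * x ^ (ε / 2) := by
        rw [← Real.rpow_add (by linarith)]
        congr 1; ring
      rw [h8]
      nlinarith
  have hlim : ∀ κ : ℝ, 0 ≤ κ → ∀ c : ℝ,
      (Tendsto (fun x : ℝ => wriesz w a b κ x / Real.log (Real.log x)) atTop (𝓝 c) ↔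
        Tendsto (fun x : ℝ => riesz a b κ x / Real.log (Real.log x)) atTop (𝓝 c)) := by
    intro κ hκ c
    have h0 : Tendsto (fun x : ℝ => (wriesz w a b κ x - riesz a b κ x) / Real.log (Real.log x))
        atTop (𝓝 0) := by
      rw [Metric.tendsto_atTop']
      intro ε hε
      have h3 := (hw.diff hκ (half_pos hε)).and hll1
      rw [eventually_atTop] at h3
      obtain ⟨X, hX⟩ := h3
      refine ⟨X, fun x hx => ?_⟩
      obtain ⟨h3, h4⟩ := hX x hx.le
      rw [Real.dist_eq, sub_zero, abs_div, abs_of_pos (show 0 < Real.log (Real.log x) by linarith),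
        div_lt_iff₀ (by linarith)]
      nlinarith
    constructor
    · intro h
      have := h.sub h0
      rw [sub_zero] at this
      refine this.congr fun x => ?_
      ring
    · intro h
      have := h.add h0
      rw [add_zero] at this
      refine this.congr fun x => ?_
      ring
  refine ⟨m, hm, ?_, ?_, ?_, ?_⟩
  · intro k ε hε
    obtain ⟨M, hM⟩ := h1 k
    refine (hM.and_eventually ((hw.diff (Nat.cast_nonneg k) (half_pos hε)).and
      (loglog_tendsto.eventually_ge_atTop (2 * M / ε)))).mono ?_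
    rintro x ⟨h6, h7, h8⟩
    rw [abs_le] at h7
    have h9 : M ≤ ε / 2 * Real.log (Real.log x) := by
      have := mul_le_mul_of_nonneg_left h8 (show 0 ≤ ε / 2 by positivity)
      have e : ε / 2 * (2 * M / ε) = M := by field_simp
      rw [e] at this
      exact this
    nlinarith
  · intro κ s hκ hs h0 θ K hθ
    -- go to a slightly larger exponent
    set θ' : ℝ := max ((θ + (s.re - 1)) / 2) ((s.re - 1) / 2) with hθ'
    have h6 : θ' < s.re - 1 := by
      rw [hθ', max_lt_iff]
      constructor <;> linarith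
    have h7 : θ < θ' := lt_of_lt_of_le (by linarith) (le_max_left _ _)
    have h8 : 0 < θ' := lt_of_lt_of_le (by linarith) (le_max_right _ _)
    have hf := h2 κ s hκ hs h0 θ' 2 h6
    have h9 : ∀ᶠ x : ℝ in atTop, K * x ^ θ ≤ x ^ θ' := by
      have h10 : Tendsto (fun x : ℝ => x ^ (θ' - θ)) atTop atTop :=
        tendsto_rpow_atTop (by linarith)
      filter_upwards [h10.eventually_ge_atTop K, eventually_gt_atTop 0] with x hx hx0
      have h11 : x ^ θ' = x ^ (θ' - θ) * x ^ θ := by
        rw [← Real.rpow_add hx0]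
        congr 1; ring
      rw [h11]
      exact mul_le_mul_of_nonneg_right hx (Real.rpow_nonneg hx0.le _)
    refine (hf.and_eventually ((hw.diff hκ one_pos).and (h9.and (loglog_small 1 h8)))).mono ?_
    rintro x ⟨h12, h13, h14, h15⟩
    rw [abs_le] at h13
    linarith [h13.1]
  · intro k K hK
    have h6 : ∀ᶠ x : ℝ in atTop, riesz a b k x ≤ (K + 1) * Real.log (Real.log x) := by
      filter_upwards [hK, hw.diff (Nat.cast_nonneg k) one_pos] with x h7 h8
      rw [abs_le] at h8
      linarith [h8.1]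
    exact (hlim _ (by positivity) _).2 (h4 k (K + 1) h6)
  intro N _ f hf
  obtain ⟨h6, h7, -, -, -⟩ := h5 N f hf
  have hcrit : ∀ κ : ℝ, 0 < κ → ∀ ρ : ℝ,
      (∀ ε : ℝ, 0 < ε → ∀ᶠ x : ℝ in atTop,
        wriesz w a b κ x ≤ (ρ + ε) * Real.log (Real.log x)) ↔ NoZeros F ∧ m ≤ ρ := by
    intro κ hκ ρ
    constructor
    · intro h
      have h8 : ∀ ε : ℝ, 0 < ε → NoZeros F ∧ m ≤ ρ + ε := by
        intro ε hε
        refine (h7 κ hκ (ρ + ε)).1 ⟨0, ?_⟩
        filter_upwards [h (ε / 2) (half_pos hε), hw.diff hκ.le (half_pos hε)] with x h9 h10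
        rw [abs_le] at h10
        linarith [h10.1]
      exact ⟨(h8 1 one_pos).1, le_of_forall_pos_le_add fun ε hε => (h8 ε hε).2⟩
    · intro h ε hε
      obtain ⟨M, hM⟩ := (h7 κ hκ ρ).2 h
      filter_upwards [hM, hw.diff hκ.le (half_pos hε),
        loglog_tendsto.eventually_ge_atTop (2 * M / ε)] with x h9 h10 h11
      rw [abs_le] at h10
      have h12 : M ≤ ε / 2 * Real.log (Real.log x) := by
        have := mul_le_mul_of_nonneg_left h11 (show 0 ≤ ε / 2 by positivity)
        have e : ε / 2 * (2 * M / ε) = M := by field_simp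
        rw [e] at this
        exact this
      linarith [h10.2]
  have hrat : ∀ κ : ℝ, 0 ≤ κ → UpperSubpower (wriesz w a b κ) → ∀ l : ℝ, 0 < l →
        Tendsto (fun x : ℝ => wriesz w a b l x / Real.log (Real.log x)) atTop (𝓝 m) := by
    intro κ hκ hk l hl
    rw [hlim l hl.le]
    obtain ⟨c, hc⟩ := h6 κ hκ ((hsub κ hκ).1 hk) l hl
    have h8 := (hc.div_atTop loglog_tendsto).add_const (m : ℝ)
    rw [zero_add] at h8
    refine h8.congr' ?_
    filter_upwards [hll1] with x hx
    have : Real.log (Real.log x) ≠ 0 := by linarith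
    field_simp
    ring
  -- subpower bounds from bounds by log log
  have hup : ∀ κ : ℝ, ∀ K : ℝ, (∀ᶠ x : ℝ in atTop, wriesz w a b κ x ≤
      K * Real.log (Real.log x)) → UpperSubpower (wriesz w a b κ) := by
    intro κ K h ε hε
    filter_upwards [h, loglog_small K hε] with x h8 h9
    exact h8.trans h9
  have hF1 : F 1 ≠ 0 ↔ m = 0 := by
    have hA : AnalyticAt ℂ F 1 := hF.1.analyticAt 1
    rw [← hA.analyticOrderAt_eq_zero, hm]
    exact_mod_cast Iff.rfl
  have hnz : ∀ κ : ℝ, 0 ≤ κ → UpperSubpower (wriesz w a b κ) → NoZeros F := by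
    intro κ hκ hk
    have h8 := hrat κ hκ hk 1 one_pos
    have h9 : ∀ᶠ x : ℝ in atTop, wriesz w a b 1 x ≤ (m + 1) * Real.log (Real.log x) := by
      filter_upwards [h8.eventually (gt_mem_nhds (show (m : ℝ) < m + 1 by linarith)), hll1]
        with x h10 h11
      rw [div_lt_iff₀ (by linarith)] at h10
      exact h10.le
    refine ((hcrit 1 one_pos (m + 1)).1 fun ε hε => ?_).1
    filter_upwards [h9, hll1] with x h10 h11
    nlinarith
  refine ⟨hcrit, hrat, ?_, ?_⟩
  · tfae_have 1 → 3 := by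
      rintro ⟨hz, hr⟩ κ hκ
      have hmr : m = rank a b := by
        rw [hm] at hr
        exact_mod_cast hr
      rw [← hmr]
      refine hrat κ hκ.le (hup κ (m + 1) ?_) κ hκ
      exact (hcrit κ hκ m).2 ⟨hz, le_rfl⟩ 1 one_pos
    tfae_have 3 → 2 := fun h => ⟨1, one_pos, h 1 one_pos⟩
    tfae_have 2 → 1 := by
      rintro ⟨κ, hκ, h⟩
      have h9 : ∀ᶠ x : ℝ in atTop, wriesz w a b κ x ≤ (rank a b + 1) * Real.log (Real.log x) := by
        filter_upwards [h.eventually (gt_mem_nhds (show (rank a b : ℝ) < rank a b + 1 by linarith)),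
          hll1] with x h10 h11
        rw [div_lt_iff₀ (by linarith)] at h10
        exact h10.le
      have hs := hup κ _ h9
      have h10 := tendsto_nhds_unique h (hrat κ hκ.le hs κ hκ)
      refine ⟨hnz κ hκ.le hs, ?_⟩
      have : m = rank a b := by exact_mod_cast h10.symm
      rw [hm, this]
    tfae_finish
  · -- the weak form
    have hhalf : ∀ κ : ℝ, 0 < κ →
        ((∀ᶠ x : ℝ in atTop, wriesz w a b κ x ≤ 1 / 2 * Real.log (Real.log x)) ↔
          NoZeros F ∧ F 1 ≠ 0) := by
      intro κ hκ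
      rw [hF1]
      constructor
      · intro h
        have h8 := (hcrit κ hκ (1 / 2)).1 fun ε hε => by
          filter_upwards [h, hll1] with x h9 h10
          nlinarith
        refine ⟨h8.1, ?_⟩
        have h9 : (m : ℝ) < 1 := by linarith [h8.2]
        have h10 : m < 1 := by exact_mod_cast h9
        omega
      · rintro ⟨hz, h0⟩
        have h8 := (hcrit κ hκ 0).2 ⟨hz, by rw [h0]; simp⟩ (1 / 2) (by norm_num)
        filter_upwards [h8] with x hx
        linarith
    tfae_have 1 → 3 := by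
      rintro ⟨hz, hr⟩ κ hκ
      refine ⟨hup κ (m + 1) ((hcrit κ hκ m).2 ⟨hz, le_rfl⟩ 1 one_pos), ?_⟩
      rw [hhalf κ hκ, ← not_infinite_iff_finite, ← hr]
      exact ⟨fun h => h.2, fun h => ⟨hz, h⟩⟩
    tfae_have 3 → 2 := fun h => ⟨1, one_pos, h 1 one_pos⟩
    tfae_have 2 → 1 := by
      rintro ⟨κ, hκ, h8, h9⟩
      have hz := hnz κ hκ.le h8
      refine ⟨hz, ?_⟩
      rw [hhalf κ hκ, ← not_infinite_iff_finite] at h9
      tauto
    tfae_finish

end Pool.Agent.H564.BSD
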